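import Pool.Agent.MP_81f5b7_pr.SQ.Spec

/-! Close pairs are rare. -/

set_option autoImplicit false
set_option linter.style.haveILetI false

namespace Pool.Agent.MP_81f5b7_pr.SQ

open Finset H42

namespace DEG

variable {V : Type} [DecidableEq V]

theorem mem_star {l : List (Pr V)} {v w : V} :
    w ∈ star l v ↔ ∃ e ∈ l, (e.1.1 = v ∧ e.1.2 = w) ∨ (e.1.2 = v ∧ e.1.1 = w) := by
  unfold star
  induction l with
  | nil => simp [outs]
  | cons e l ih =>
    have hne := e.2
    simp only [outs, List.mem_cons, exists_eq_or_imp]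
    split_ifs with h1 h2
    · rw [List.mem_cons, ih]
      constructor
      · rintro (h | h)
        · exact Or.inl (Or.inl ⟨by simpa using h1, h.symm⟩)
        · exact Or.inr h
      · rintro ((h | h) | h)
        · exact Or.inl h.2.symm
        · exact absurd ((show e.1.1 = v by simpa using h1).trans h.1.symm) hne
        · exact Or.inr h
    · rw [List.mem_cons, ih]
      constructor
      · rintro (h | h)
        · exact Or.inl (Or.inr ⟨by simpa using h2, h.symm⟩)
        · exact Or.inr h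
      · rintro ((h | h) | h)
        · exact absurd h.1 (by simpa using h1)
        · exact Or.inl h.2.symm
        · exact Or.inr h
    · rw [ih]
      constructor
      · exact Or.inr
      · rintro ((h | h) | h)
        · exact absurd h.1 (by simpa using h1)
        · exact absurd h.1 (by simpa using h2)
        · exact h

theorem star_symm {l : List (Pr V)} {v w : V} (h : w ∈ star l v) : v ∈ star l w := by
  obtain ⟨e, he, h⟩ := mem_star.1 h
  exact mem_star.2 ⟨e, he, by tauto⟩

/-- closed neighbourhood -/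
def nb (l : List (Pr V)) (v : V) : Finset V := (v :: star l v).toFinset

theorem mem_nb {l : List (Pr V)} {v w : V} : w ∈ nb l v ↔ w ∈ v :: star l v := List.mem_toFinset

theorem nb_symm {l : List (Pr V)} {v w : V} (h : w ∈ nb l v) : v ∈ nb l w := by
  rw [mem_nb, List.mem_cons] at h ⊢
  rcases h with h | h
  · exact Or.inl h.symm
  · exact Or.inr (star_symm h)

theorem card_nb {l : List (Pr V)} {k : ℕ} (h : ∀ v, (star l v).length ≤ k) (v : V) :
    (nb l v).card ≤ k + 1 :=
  (List.toFinset_card_le _).trans (by rw [List.length_cons]; exact Nat.succ_le_succ (h v))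

/-- the ball of radius three -/
def bl (l : List (Pr V)) (x : V) : Finset V := ((nb l x).biUnion (nb l)).biUnion (nb l)

theorem card_bl {l : List (Pr V)} {k : ℕ} (h : ∀ v, (star l v).length ≤ k) (x : V) :
    (bl l x).card ≤ (k + 1) ^ 3 := by
  have h1 : ((nb l x).biUnion (nb l)).card ≤ (k + 1) * (k + 1) :=
    (card_biUnion_le_card_mul _ _ _ fun v _ => card_nb h v).trans
      (Nat.mul_le_mul_right _ (card_nb h x))
  refine (card_biUnion_le_card_mul _ _ _ fun v _ => card_nb h v).trans ?_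
  calc _ ≤ (k + 1) * (k + 1) * (k + 1) := Nat.mul_le_mul_right _ h1
    _ = _ := by ring

theorem mem_bl {l : List (Pr V)} {x y : V} (h : ¬ far l x y) : y ∈ bl l x := by
  unfold far at h
  push Not at h
  obtain ⟨e, he, hx, hy⟩ := h
  have s1 : e.1.1 ∈ nb l e.1.1 := mem_nb.2 List.mem_cons_self
  have s2 : e.1.2 ∈ nb l e.1.2 := mem_nb.2 List.mem_cons_self
  have s3 : e.1.2 ∈ nb l e.1.1 :=
    mem_nb.2 (List.mem_cons_of_mem _ (mem_star.2 ⟨e, he, Or.inl ⟨rfl, rfl⟩⟩))
  have s4 : e.1.1 ∈ nb l e.1.2 := nb_symm s3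
  have key : ∀ a b : V, a ∈ x :: star l x → b ∈ nb l a → b ∈ y :: star l y → y ∈ bl l x :=
    fun a b ha hb hc =>
      mem_biUnion.2 ⟨b, mem_biUnion.2 ⟨a, mem_nb.2 ha, hb⟩, nb_symm (mem_nb.2 hc)⟩
  rcases hx with hx | hx <;> rcases hy with hy | hy
  · exact key _ _ hx s1 hy
  · exact key _ _ hx s3 hy
  · exact key _ _ hx s4 hy
  · exact key _ _ hx s2 hy

/-- the weight of a letter -/
def wt (v : V) (a b : V) : ℝ := 1 + (if a = v then 1 else 0) + (if b = v then 1 else 0)

theorem two_pow_le (v : V) (l : List (Pr V)) :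
    (2 : ℝ) ^ (star l v).length ≤ (l.map fun e => wt v e.1.1 e.1.2).prod := by
  unfold star
  induction l with
  | nil => simp [outs]
  | cons e l ih =>
    have h0 : (0 : ℝ) ≤ 2 ^ (outs [v] l).length := by positivity
    simp only [outs, List.mem_singleton, List.map_cons, List.prod_cons]
    split_ifs with h1 h2
    · rw [List.length_cons, pow_succ, mul_comm]
      refine mul_le_mul ?_ ih h0 ?_ <;> unfold wt <;> rw [if_pos h1] <;> split_ifs <;> norm_num
    · rw [List.length_cons, pow_succ, mul_comm]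
      refine mul_le_mul ?_ ih h0 ?_ <;> unfold wt <;> rw [if_neg h1, if_pos h2] <;> norm_num
    · have : wt v e.1.1 e.1.2 = 1 := by unfold wt; rw [if_neg h1, if_neg h2]; norm_num
      rw [this, one_mul]; exact ih

variable [Fintype V]

theorem av_wt (h : 2 ≤ Fintype.card V) (v : V) :
    av (fun e : Pr V => wt v e.1.1 e.1.2) = 1 + 2 / (Fintype.card V : ℝ) := by
  have h2 : (2 : ℝ) ≤ Fintype.card V := by exact_mod_cast h
  have h0 : (Fintype.card V : ℝ) ≠ 0 := by linarith
  have h1 : (Fintype.card V : ℝ) - 1 ≠ 0 := by linarith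
  rw [av_Pr (wt v)]
  simp only [wt, sum_add_distrib, sum_const, card_univ, nsmul_eq_mul, mul_one, sum_ite_eq',
    mem_univ, if_true, ← mul_sum]
  field_simp
  ring

theorem EL_two_pow (h : 2 ≤ Fintype.card V) {m : ℕ} (hm : m ≤ 3 * Fintype.card V) (v : V) :
    EL m (fun l : List (Pr V) => (2 : ℝ) ^ (star l v).length) ≤ Real.exp 6 := by
  have h2 : (2 : ℝ) ≤ Fintype.card V := by exact_mod_cast h
  have h0 : (0 : ℝ) < Fintype.card V := by linarith
  have hm' : (m : ℝ) ≤ 3 * Fintype.card V := by exact_mod_cast hm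
  refine (EL_mono m (two_pow_le v)).trans ?_
  rw [EL_prod, av_wt h]
  calc (1 + 2 / (Fintype.card V : ℝ)) ^ m ≤ Real.exp (2 / (Fintype.card V : ℝ)) ^ m :=
        pow_le_pow_left₀ (by positivity) (by linarith [Real.add_one_le_exp (2 / (Fintype.card V : ℝ))]) m
    _ = Real.exp (m * (2 / (Fintype.card V : ℝ))) := (Real.exp_nat_mul _ _).symm
    _ ≤ Real.exp 6 := by
        refine Real.exp_le_exp.2 ?_
        rw [← mul_div_assoc, div_le_iff₀ h0]; linarith

theorem point (h : 2 ≤ Fintype.card V) (k : ℕ) (l : List (Pr V)) :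
    (av fun x => av fun y => ind ((hr l).Nonempty ∧ par (hr l) x ∧ ¬ far l x y)) ≤
      ((k : ℝ) + 1) ^ 3 / Fintype.card V * (chi (hr l) * yy (hr l)) +
        (1 / 2 ^ k) * ∑ v, (2 : ℝ) ^ (star l v).length := by
  haveI := nonempty_of_two h
  have h2 : (2 : ℝ) ≤ Fintype.card V := by exact_mod_cast h
  have h0 : (0 : ℝ) < Fintype.card V := by linarith
  have p1 : 0 ≤ ((k : ℝ) + 1) ^ 3 / Fintype.card V * (chi (hr l) * yy (hr l)) :=
    mul_nonneg (by positivity) (mul_nonneg (chi_nonneg _) (yy_nonneg _))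
  have p2 : 0 ≤ (1 / 2 ^ k : ℝ) * ∑ v, (2 : ℝ) ^ (star l v).length := by positivity
  by_cases hk : ∀ v, (star l v).length ≤ k
  · refine le_trans ?_ (le_add_of_nonneg_right p2)
    rw [yy, ← av_mul_left, ← av_mul_left]
    refine av_mono fun x => ?_
    have e1 : ∀ y, ind ((hr l).Nonempty ∧ par (hr l) x ∧ ¬ far l x y) ≤
        (chi (hr l) * ind (par (hr l) x)) * ind (y ∈ bl l x) := fun y => by
      rw [chi, ← ind_and, ← ind_and]
      exact ind_mono fun hy => ⟨⟨hy.1, hy.2.1⟩, mem_bl hy.2.2⟩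
    refine (av_mono e1).trans ?_
    rw [av_mul_left, mul_comm]
    refine mul_le_mul_of_nonneg_right ?_ (mul_nonneg (chi_nonneg _) (ind_nonneg _))
    rw [av_ind]
    refine div_le_div_of_nonneg_right ?_ h0.le
    have e2 : ((bl l x).card : ℝ) ≤ ((k : ℝ) + 1) ^ 3 := by exact_mod_cast card_bl hk x
    refine le_trans ?_ e2
    exact_mod_cast card_le_card fun y hy => by simpa using hy
  · push Not at hk
    obtain ⟨v, hv⟩ := hk
    refine le_trans (av_le fun x => av_le fun y => ind_le_one _) (le_add_of_nonneg_of_le p1 ?_)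
    have e1 : (2 : ℝ) ^ k ≤ ∑ v, (2 : ℝ) ^ (star l v).length :=
      (pow_le_pow_right₀ (by norm_num) hv.le).trans
        (single_le_sum (f := fun v => (2 : ℝ) ^ (star l v).length) (fun _ _ => by positivity)
          (mem_univ v))
    rw [one_div, inv_mul_eq_div, le_div_iff₀ (by positivity), one_mul]
    exact e1

end DEG

theorem rowDEG (hY : H42.RowY) : RowDEG := by
  obtain ⟨C, hC⟩ := hY
  refine ⟨|C| + 3 * Real.exp 6, by positivity, fun V _ _ h M k hM => ?_⟩
  have h2 : (2 : ℝ) ≤ Fintype.card V := by exact_mod_cast h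
  have hM' : (M : ℝ) ≤ 3 * Fintype.card V := by exact_mod_cast hM
  have e1 := (hC V h M hM).trans (le_abs_self C)
  rw [sm_hs_eq] at e1
  have e2 : ∀ m ∈ range M, EL m (fun l : List (Pr V) => av fun x => av fun y =>
      ind ((hr l).Nonempty ∧ par (hr l) x ∧ ¬ far l x y)) ≤
      ((k : ℝ) + 1) ^ 3 / Fintype.card V * EL m (fun l : List (Pr V) => chi (hr l) * yy (hr l)) +
        (1 / 2 ^ k) * (Fintype.card V * Real.exp 6) := fun m hm => by
    refine (EL_mono m (DEG.point h k)).trans ?_
    rw [EL_add, EL_mul_left, EL_mul_left, EL_sum]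
    refine add_le_add le_rfl (mul_le_mul_of_nonneg_left ?_ (by positivity))
    refine (sum_le_sum fun v _ => DEG.EL_two_pow h (by have := mem_range.1 hm; omega) v).trans_eq ?_
    simp
  refine (sum_le_sum e2).trans ?_
  rw [sum_add_distrib, ← mul_sum, sum_const, card_range, nsmul_eq_mul]
  set A : ℝ := ((k : ℝ) + 1) ^ 3 / Fintype.card V with hA
  set B : ℝ := (Fintype.card V : ℝ) ^ 2 / 2 ^ k with hB
  have hA0 : 0 ≤ A := by positivity
  have hB0 : 0 ≤ B := by positivity
  have hE : 0 ≤ Real.exp 6 := (Real.exp_pos 6).le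
  have e3 : (M : ℝ) * ((1 / 2 ^ k) * (Fintype.card V * Real.exp 6)) ≤ 3 * Real.exp 6 * B := by
    calc _ ≤ (3 * Fintype.card V : ℝ) * ((1 / 2 ^ k) * (Fintype.card V * Real.exp 6)) :=
          mul_le_mul_of_nonneg_right hM' (by positivity)
      _ = _ := by rw [hB]; ring
  have e4 := mul_le_mul_of_nonneg_left e1 hA0
  nlinarith [mul_nonneg (abs_nonneg C) hB0, mul_nonneg hE hA0]

end Pool.Agent.MP_81f5b7_pr.SQ
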