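import Pool.Agent.MP_81f5b7_pr.SQ.Spec

/-! The drift under the letters of a closed neighbourhood. -/

set_option autoImplicit false
set_option linter.style.haveILetI false

namespace Pool.Agent.MP_81f5b7_pr.SQ

open Finset Filter H42

namespace DR2

variable {V : Type} [DecidableEq V]

theorem inn_nil (l : List (Pr V)) : inn [] l = l := by
  unfold inn
  exact List.filter_eq_self.2 fun e _ => by simp [tch]

theorem hr_sub (Z : List V) (l : List (Pr V)) : hr l ⊆ hr (inn Z l) := fun _ hσ =>
  mem_hr.2 fun e he => mem_hr.1 hσ e (List.mem_of_mem_filter he)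

theorem nd_one (x : V) (l : List (Pr V)) : nd [x] l := fun e _ h =>
  e.2 ((List.mem_singleton.1 h.1).trans (List.mem_singleton.1 h.2).symm)

end DR2

open DR2 in
theorem rowDR2 (hR : RowRES) (hV : RowVD) : RowDRIFT := by
  obtain ⟨C, hC0, hV⟩ := hV
  refine ⟨C + C * Real.exp 24, by positivity, fun V _ _ h M φ hM h0 h1 hm => ?_⟩
  haveI := nonempty_of_two h
  have key : ∀ i : ℕ, ∑ m ∈ range M, EL m (fun l : List (Pr V) =>
      EL i fun s => φ (hr l) - φ (hr (inn s l))) ≤ i * C := by
    intro i
    induction i with
    | zero => simp [EL, inn_nil, EL_fun_zero]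
    | succ i ih =>
      have e : ∀ l : List (Pr V), (EL (i + 1) fun s => φ (hr l) - φ (hr (inn s l))) =
          (EL i fun s => φ (hr l) - φ (hr (inn s l))) +
            EL i fun s => av fun v => φ (hr (inn s l)) - φ (hr (inn (v :: s) l)) := by
        intro l
        rw [EL_succ, ← EL_av, ← EL_add]
        refine EL_congr _ fun s _ => ?_
        rw [av_sub, av_sub, av_const, av_const]; ring
      simp only [e, EL_add, sum_add_distrib]
      have h2 : ∑ m ∈ range M, EL m (fun l : List (Pr V) =>
          EL i fun s => av fun v => φ (hr (inn s l)) - φ (hr (inn (v :: s) l))) ≤ C := by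
        simp only [EL_comm _ i]
        rw [← EL_sum]
        refine EL_le _ fun s _ => ?_
        have := hV V h M s φ hM h0 h1 hm
        rw [av_sum] at this
        simpa only [EL_av] using this
      push_cast; linarith
  have e1 : ∀ l : List (Pr V), (av fun x => φ (hr l) - φ (hr (in2 l x))) =
      (av fun x => φ (hr (inn [] l)) - φ (hr (inn [x] l))) +
        av fun x => ind (nd [x] l) *
          (φ (hr (inn [x] l)) - φ (hr (inn (outs [x] l) (inn [x] l)))) := by
    intro l
    rw [← av_add]
    refine congrArg _ (funext fun x => ?_)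
    rw [ind_pos (nd_one x l), inn_nil, in2, star]; ring
  simp only [e1, EL_add, sum_add_distrib]
  refine add_le_add ?_ ?_
  · have := hV V h M [] φ hM h0 h1 hm
    rw [av_sum] at this
    simpa only [EL_av] using this
  · simp only [EL_av]
    rw [← av_sum]
    refine av_le fun x => ?_
    refine (hR V h M [x] (fun l s => φ (hr l) - φ (hr (inn s l))) hM
      fun l s => sub_nonneg.2 (hm _ _ (hr_sub s l))).trans ?_
    refine le_trans (sum_le_sum fun i _ => ?_) (mul_le_mul_of_nonneg_left
      (Real.sum_le_exp_of_nonneg (show (0 : ℝ) ≤ 24 by norm_num) (M + 1)) hC0 |>.trans'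
        (le_of_eq (mul_sum _ _ _).symm))
    refine (mul_le_mul_of_nonneg_left (key i) (by positivity)).trans ?_
    have h2 : (i : ℝ) ≤ 2 ^ i := by exact_mod_cast (Nat.lt_two_pow_self (n := i)).le
    have h3 : (24 : ℝ) ^ i = 12 ^ i * 2 ^ i := by rw [← mul_pow]; norm_num
    simp only [List.length_singleton, Nat.cast_one, mul_one]
    rw [h3]
    have h4 : (0 : ℝ) ≤ 12 ^ i / i.factorial * C := by positivity
    calc (12 : ℝ) ^ i / i.factorial * (i * C) = 12 ^ i / i.factorial * C * i := by ring
      _ ≤ 12 ^ i / i.factorial * C * 2 ^ i := mul_le_mul_of_nonneg_left h2 h4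
      _ = C * (12 ^ i * 2 ^ i / i.factorial) := by ring

end Pool.Agent.MP_81f5b7_pr.SQ
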