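import Pool.Agent.MP_81f5b7_pr.SQ.Spec

/-! Distant neighbourhoods do not see each other. -/

set_option autoImplicit false

namespace Pool.Agent.MP_81f5b7_pr.SQ

open Finset Filter H42

namespace FAR

variable {V : Type} [DecidableEq V]

omit [DecidableEq V] in
theorem tch_cons (x : V) (s : List V) (e : Pr V) : tch (x :: s) e ↔ tch [x] e ∨ tch s e := by
  simp only [tch, List.mem_cons, List.not_mem_nil, or_false]; tauto

theorem inn_inn (x : V) (s : List V) (l : List (Pr V)) : inn s (inn [x] l) = inn (x :: s) l := by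
  unfold inn
  rw [List.filter_filter]
  refine List.filter_congr fun e _ => ?_
  rw [← Bool.decide_and, decide_eq_decide, tch_cons x s e]; tauto

theorem inn_comm (Z Z' : List V) (l : List (Pr V)) : inn Z (inn Z' l) = inn Z' (inn Z l) :=
  List.filter_comm _ _ _

theorem mem_inn {Z : List V} {l : List (Pr V)} {e : Pr V} : e ∈ inn Z l ↔ e ∈ l ∧ ¬ tch Z e := by
  simp [inn]

theorem outs_inn {Z Z' : List V} {l : List (Pr V)} (h : ∀ e ∈ l, tch Z e → ¬ tch Z' e) :
    outs Z (inn Z' l) = outs Z l := by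
  induction l with
  | nil => rfl
  | cons e l ih =>
    have ih' := ih fun f hf => h f (List.mem_cons_of_mem _ hf)
    by_cases he : tch Z' e
    · have h1 : ¬ tch Z e := fun h1 => h e List.mem_cons_self h1 he
      have h2 : inn Z' (e :: l) = inn Z' l := by simp [inn, he]
      rw [h2, ih', outs, if_neg fun a => h1 (Or.inl a), if_neg fun a => h1 (Or.inr a)]
    · have h2 : inn Z' (e :: l) = e :: inn Z' l := by simp [inn, he]
      rw [h2, outs, outs, ih']

theorem nd_inn {Z Z' : List V} {l : List (Pr V)} (h : ∀ e ∈ l, tch Z e → ¬ tch Z' e) :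
    nd Z (inn Z' l) ↔ nd Z l :=
  ⟨fun H e he hz => H e (mem_inn.2 ⟨he, h e he (Or.inl hz.1)⟩) hz,
    fun H e he => H e (mem_inn.1 he).1⟩

theorem in2_eq (l : List (Pr V)) (x : V) : in2 l x = inn (x :: star l x) l := inn_inn _ _ _

theorem far_symm {l : List (Pr V)} {x y : V} (h : far l x y) : far l y x :=
  fun e he hh => h e he hh.symm

theorem star_in2 {l : List (Pr V)} {x y : V} (h : far l x y) : star (in2 l x) y = star l y := by
  rw [in2_eq]
  exact outs_inn fun e he h1 h2 => h e he ⟨h2, (tch_cons _ _ _).2 (Or.inl h1)⟩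

end FAR

open FAR in
theorem rowFAR : RowFAR := by
  intro V _ l x y h
  have hs := star_in2 h
  have key : ∀ e ∈ inn [y] l, tch (star l y) e → ¬ tch (x :: star l x) e :=
    fun e he h1 h2 => h e (mem_inn.1 he).1 ⟨h2, (tch_cons _ _ _).2 (Or.inr h1)⟩
  refine ⟨far_symm h, ?_, ?_, ?_⟩
  · unfold zz
    rw [hs, in2_eq, inn_comm]
    exact outs_inn key
  · unfold nt
    rw [hs, in2_eq, inn_comm]
    exact nd_inn key
  · rw [in2_eq (in2 l x), in2_eq (in2 l y), hs, star_in2 (far_symm h), in2_eq, in2_eq, inn_comm]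

end Pool.Agent.MP_81f5b7_pr.SQ
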