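import Pool.Agent.MP_81f5b7_pr.SQ.Spec
import Pool.Agent.MP_81f5b7_pr.H42.FIN

/-! The window of order `sqrt n` around the median. -/

set_option autoImplicit false
set_option linter.style.haveILetI false

namespace Pool.Agent.MP_81f5b7_pr.SQ

open Finset Filter H42

namespace GS

/-- the median of the death time -/
noncomputable def md (n : ℕ) : ℕ := sInf {m | pp n m ≤ 1 / 2}

theorem md_le {n m : ℕ} (h : pp n m ≤ 1 / 2) : md n ≤ m := Nat.sInf_le h

theorem md_spec {n m : ℕ} (h : pp n m ≤ 1 / 2) : pp n (md n) ≤ 1 / 2 :=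
  Nat.sInf_mem (s := {m | pp n m ≤ 1 / 2}) ⟨m, h⟩

theorem lt_md {n m : ℕ} (h : m < md n) : 1 / 2 < pp n m := by
  by_contra hc
  exact absurd (md_le (not_lt.1 hc)) (not_le.2 h)

theorem lim (hT : RowTHR) : ∃ c : ℝ, Tendsto (fun n : ℕ => (md n : ℝ) / n) atTop (nhds c) := by
  obtain ⟨c, hc0, -, hT⟩ := hT
  refine ⟨c, Metric.tendsto_nhds.2 fun ε hε => ?_⟩
  filter_upwards [hT (ε / 4) (1 / 4) (by positivity) (by norm_num), eventually_ge_atTop 1,
    tendsto_natCast_atTop_atTop.eventually_ge_atTop (4 / ε)] with n hT hn hnε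
  have hn' : (1 : ℝ) ≤ n := by exact_mod_cast hn
  have hε1 : 1 ≤ ε / 4 * n := by rw [div_le_iff₀ hε] at hnε; linarith
  have h2 : pp n ⌈(c + ε / 4) * n⌉₊ ≤ 1 / 2 := ((hT _).2 (Nat.le_ceil _)).trans (by norm_num)
  have hu : (md n : ℝ) ≤ (c + ε / 4) * n + 1 := by
    have h : (md n : ℝ) ≤ ⌈(c + ε / 4) * n⌉₊ := by exact_mod_cast md_le h2
    linarith [Nat.ceil_lt_add_one (show 0 ≤ (c + ε / 4) * n by positivity)]
  have hl : (c - ε / 4) * n ≤ md n := by
    by_contra hc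
    linarith [(hT _).1 (not_le.1 hc).le, md_spec h2]
  rw [Real.dist_eq, abs_lt, lt_sub_iff_add_lt, sub_lt_iff_lt_add, lt_div_iff₀ (by linarith),
    div_lt_iff₀ (by linarith)]
  constructor <;> nlinarith

end GS

open FIN GS in
theorem goalS (hQ : RowQW) (hT : RowTHR) (hF : RowFM) (hL : RowLINK) (hS : RowSEM) : GoalS := by
  obtain ⟨C, hC, hL⟩ := hL
  refine ⟨fun n => md n, lim hT, fun η hη => ?_⟩
  obtain ⟨e, he0, he1, he2⟩ : ∃ e : ℝ, 0 < e ∧ e ≤ η / (2 * C) ∧ e ≤ 1 / 2 :=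
    ⟨min (η / (2 * C)) (1 / 2), by positivity, min_le_left _ _, min_le_right _ _⟩
  obtain ⟨A, hA, hQ⟩ := hQ e he0
  refine ⟨A + 3, ?_⟩
  filter_upwards [hL, hQ, hF.eventually_lt_const he0, eventually_ge_atTop 2] with n hL hQ h3 hn
  have hn' : (2 : ℝ) ≤ n := by exact_mod_cast hn
  haveI : Nonempty (Pr (Fin n)) := nonempty_Pr (by simpa using hn)
  have hr1 : 1 ≤ Real.sqrt n := Real.one_le_sqrt.2 (by linarith)
  set D := Real.sqrt n with hD
  have hAD : 0 ≤ A * D := by positivity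
  have h3' : pp n (3 * n) ≤ 1 / 2 := h3.le.trans he2
  have hm3 : md n ≤ 3 * n := md_le h3'
  have hmd := md_spec h3'
  set m₁ := ⌊(md n : ℝ) - A * D - 2⌋₊ with hm₁
  set m₂ := min (md n + (⌈A * D⌉₊ + 1)) (3 * n) with hm₂
  have h2' : (m₂ : ℝ) ≤ md n + A * D + 2 := by
    have h : (m₂ : ℝ) ≤ (md n + (⌈A * D⌉₊ + 1) : ℕ) := by exact_mod_cast min_le_left _ _
    push_cast at h
    linarith [Nat.ceil_lt_add_one hAD]
  have h1' : (md n : ℝ) - A * D - 2 < m₁ + 1 := Nat.lt_floor_add_one _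
  have h24 : m₂ ≤ 4 * n := (min_le_right _ _).trans (by omega)
  have h1m : m₁ ≤ md n := Nat.floor_le_of_le (by linarith)
  have h12 : m₁ ≤ m₂ := le_min (by omega) (by omega)
  have hp1 : 1 - e ≤ pp n m₁ := by
    by_cases h : 0 ≤ (md n : ℝ) - A * D - 2
    · by_contra hc
      have hf : (m₁ : ℝ) ≤ md n - A * D - 2 := Nat.floor_le h
      have hlt : m₁ + 2 ≤ md n := by
        have : ((m₁ + 2 : ℕ) : ℝ) ≤ md n := by push_cast; linarith
        exact_mod_cast this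
      obtain ⟨W, hW⟩ : ∃ W, md n = m₁ + W + 1 := ⟨md n - m₁ - 1, by omega⟩
      have h5 := hQ m₁ W (by omega) (not_le.1 hc).le
        (he2.trans (lt_md (show m₁ + W < md n by omega)).le)
      have h6 : (md n : ℝ) = m₁ + W + 1 := by exact_mod_cast hW
      linarith
    · rw [hm₁, Nat.floor_of_nonpos (not_le.1 h).le, pp_zero]; linarith
  have hp2 : pp n m₂ ≤ e := by
    by_cases h : md n + (⌈A * D⌉₊ + 1) ≤ 3 * n
    · rw [hm₂, min_eq_left h]
      by_contra hc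
      have h5 := hQ (md n) (⌈A * D⌉₊ + 1) h (by linarith) (not_le.1 hc).le
      push_cast at h5
      linarith [Nat.le_ceil (A * D)]
    · rw [hm₂, min_eq_right (not_le.1 h).le]; exact h3.le
  have key := hL m₂ h24
    (fun π => ¬ ∃ t : ℕ, FirstRej π t ∧ |(t : ℝ) - md n| ≤ (A + 3) * D)
    (fun l => ¬ (hr (l.take m₁)).Nonempty ∨ (hr (l.take m₂)).Nonempty) (by
      intro π l hl hm hb
      by_contra hB
      rw [not_or, not_not] at hB
      obtain ⟨t, t1, t2, t3⟩ := exists_death l hB.1 hB.2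
      refine hb ⟨t, ((hS n π l hm).2 t (hl ▸ t2)).2 t3, ?_⟩
      have t1' : (m₁ : ℝ) ≤ t := by exact_mod_cast t1
      have t2' : (t : ℝ) ≤ m₂ := by exact_mod_cast t2.le
      rw [abs_le]; constructor <;> nlinarith)
  have hE : EL m₂ (fun l : List (Pr (Fin n)) =>
      ind (¬ (hr (l.take m₁)).Nonempty ∨ (hr (l.take m₂)).Nonempty)) ≤
      (1 - pp n m₁) + pp n m₂ := by
    refine (EL_mono _ fun l => ind_or_le _ _).trans_eq ?_
    simp only [ind_not]
    rw [EL_add, EL_sub, EL_const, EL_take h12 fun l => ind (hr l).Nonempty,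
      EL_take le_rfl fun l => ind (hr l).Nonempty]
    rfl
  rw [prob_not]
  have h3 : C * (2 * (η / (2 * C))) = η := by field_simp
  have h4 := mul_le_mul_of_nonneg_left (hE.trans (show _ ≤ 2 * (η / (2 * C)) by linarith)) hC.le
  linarith

end Pool.Agent.MP_81f5b7_pr.SQ
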