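import Pool.Agent.MP_81f5b7_pr.SQ.Spec

/-! The second neighbours of a partnered vertex cover. -/

set_option autoImplicit false

namespace Pool.Agent.MP_81f5b7_pr.SQ

open Finset Filter H42

namespace KEY

variable {V : Type} [DecidableEq V]

theorem mem_inn {Z : List V} {l : List (Pr V)} {e : Pr V} :
    e ∈ inn Z l ↔ e ∈ l ∧ ¬ tch Z e := by
  simp [inn, List.mem_filter]

theorem mem_outs {Z : List V} {l : List (Pr V)} {v : V} :
    v ∈ outs Z l ↔ ∃ e ∈ l, (e.1.1 ∈ Z ∧ v = e.1.2) ∨ (e.1.1 ∉ Z ∧ e.1.2 ∈ Z ∧ v = e.1.1) := by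
  induction l with
  | nil => simp [outs]
  | cons e l ih =>
    by_cases h1 : e.1.1 ∈ Z
    · simp [outs, h1, ih]
    · by_cases h2 : e.1.2 ∈ Z
      · simp [outs, h1, h2, ih]
      · simp [outs, h1, h2, ih]

omit [DecidableEq V] in
theorem tch_one {y : V} {e : Pr V} : tch [y] e ↔ e.1.1 = y ∨ e.1.2 = y := by
  simp [tch]

theorem adj_of_star {l : List (Pr V)} {y u : V} (h : u ∈ star l y) : adj l y u := by
  obtain ⟨e, he, h | h⟩ := mem_outs.1 h
  · refine ⟨e, he, Or.inl ?_⟩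
    have h1 : e.1.1 = y := by simpa using h.1
    exact Prod.ext h1 h.2.symm
  · refine ⟨e, he, Or.inr ?_⟩
    have h1 : e.1.2 = y := by simpa using h.2.1
    exact Prod.ext h.2.2.symm h1

/-- the recolouring -/
def rc (l : List (Pr V)) (y : V) (σ : V → Fin 3) (c a : Fin 3) : V → Fin 3 :=
  fun v => if v = y then a else if v ∈ star l y then c else σ v

theorem rc_mem {l : List (Pr V)} {y : V} {σ : V → Fin 3} {c a : Fin 3} (hac : a ≠ c)
    (hn : nt l y) (hσ : σ ∈ hr (in2 l y)) (hc : ∀ x ∈ zz l y, σ x ≠ c) :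
    rc l y σ c a ∈ hr l := by
  refine mem_hr.2 fun e he => ?_
  by_cases h1 : e.1.1 = y
  · have h2 : e.1.2 ≠ y := fun h => e.2 (h1.trans h.symm)
    have h3 : e.1.2 ∈ star l y := mem_outs.2 ⟨e, he, Or.inl ⟨by simp [h1], rfl⟩⟩
    simp only [rc, if_pos h1, if_neg h2, if_pos h3]
    exact hac
  by_cases h2 : e.1.2 = y
  · have h3 : e.1.1 ∈ star l y :=
      mem_outs.2 ⟨e, he, Or.inr ⟨by simpa using h1, by simp [h2], rfl⟩⟩
    simp only [rc, if_neg h1, if_pos h2, if_pos h3]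
    exact hac.symm
  have hi : e ∈ inn [y] l := mem_inn.2 ⟨he, fun h => (tch_one.1 h).elim h1 h2⟩
  by_cases h3 : e.1.1 ∈ star l y
  · have h4 : e.1.2 ∉ star l y := fun h => hn e hi ⟨h3, h⟩
    have h5 : e.1.2 ∈ zz l y := mem_outs.2 ⟨e, hi, Or.inl ⟨h3, rfl⟩⟩
    simp only [rc, if_neg h1, if_neg h2, if_pos h3, if_neg h4]
    exact (hc _ h5).symm
  by_cases h4 : e.1.2 ∈ star l y
  · have h5 : e.1.1 ∈ zz l y := mem_outs.2 ⟨e, hi, Or.inr ⟨h3, h4, rfl⟩⟩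
    simp only [rc, if_neg h1, if_neg h2, if_neg h3, if_pos h4]
    exact hc _ h5
  · have h5 : e ∈ in2 l y := mem_inn.2 ⟨hi, fun h => h.elim h3 h4⟩
    simp only [rc, if_neg h1, if_neg h2, if_neg h3, if_neg h4]
    exact mem_hr.1 hσ e h5

theorem fin3 : ∀ c : Fin 3, c + 1 ≠ c ∧ c + 2 ≠ c ∧ c + 1 ≠ c + 2 := by decide

end KEY

open KEY in
theorem rowKEY : RowKEY := by
  intro V _ l y
  refine ⟨fun σ hσ => mem_hr.2 fun e he => mem_hr.1 hσ e (mem_inn.1 (mem_inn.1 he).1).1, ?_, ?_⟩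
  · rintro ⟨w, hw, hp⟩ hn σ hσ c -
    by_contra hc
    have hc' : ∀ x ∈ zz l y, σ x ≠ c := fun x hx h => hc ⟨x, hx, h⟩
    have h1 := hp _ (rc_mem (fin3 c).1 hn hσ hc')
    have h2 := hp _ (rc_mem (fin3 c).2.1 hn hσ hc')
    simp only [rc, if_pos, if_neg hw] at h1 h2
    exact (fin3 c).2.2 (h1.trans h2.symm)
  · intro hn
    unfold nt nd at hn
    push Not at hn
    obtain ⟨e, he, h1, h2⟩ := hn
    exact ⟨e.1.1, e.1.2, adj_of_star h1, adj_of_star h2, e, (mem_inn.1 he).1, Or.inl rfl⟩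

end Pool.Agent.MP_81f5b7_pr.SQ
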