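import Pool.Agent.MP_81f5b7_pr.SQ.Spec

/-! Hazard times remaining life. -/

set_option autoImplicit false
set_option linter.style.haveILetI false

namespace Pool.Agent.MP_81f5b7_pr.SQ

open Finset Filter H42

namespace PSI

variable {V : Type} [Fintype V] [DecidableEq V]

theorem point (h : 2 ≤ Fintype.card V) (W : ℕ) (T : St V) :
    hz T * life W T ≤
      2 * av fun x => av fun y => ind (T.Nonempty ∧ x ≠ y ∧ eqv T x y) * life W T := by
  have h1 : hz T * life W T ≤ av fun e : Pr V =>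
      ind (T.Nonempty ∧ e.1.1 ≠ e.1.2 ∧ eqv T e.1.1 e.1.2) * life W T := by
    rw [hz, ← av_mul_right]
    refine av_mono fun e => ?_
    by_cases hT : T.Nonempty
    · refine mul_le_mul_of_nonneg_right (ind_mono fun hd => ⟨hT, e.2, ?_⟩) (life_nonneg _ _)
      by_contra hc
      exact hd (cut_nonempty.2 hc)
    · rw [Set.not_nonempty_iff_eq_empty.1 hT, life_empty]; simp
  refine h1.trans ?_
  exact av_Pr_le h (f := fun x y => ind (T.Nonempty ∧ x ≠ y ∧ eqv T x y) * life W T)
    fun x y => mul_nonneg (ind_nonneg _) (life_nonneg _ _)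

/-- sum over times of averages over pairs -/
noncomputable def SS (M : ℕ) (f : List (Pr V) → V → V → ℝ) : ℝ :=
  ∑ m ∈ range M, EL m fun l => av fun x => av fun y => f l x y

theorem SS_add (M : ℕ) (f g : List (Pr V) → V → V → ℝ) :
    SS M (fun l x y => f l x y + g l x y) = SS M f + SS M g := by
  simp only [SS, av_add, EL_add, sum_add_distrib]

theorem SS_mul (M : ℕ) (c : ℝ) (f : List (Pr V) → V → V → ℝ) :
    SS M (fun l x y => c * f l x y) = c * SS M f := by
  simp only [SS, av_mul_left, EL_mul_left, mul_sum]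

theorem SS_mono (M : ℕ) {f g : List (Pr V) → V → V → ℝ} (h : ∀ l x y, f l x y ≤ g l x y) :
    SS M f ≤ SS M g :=
  sum_le_sum fun _ _ => EL_mono _ fun l => av_mono fun x => av_mono fun y => h l x y

theorem SS_comm (M : ℕ) (f : List (Pr V) → V → V → ℝ) :
    SS M f = SS M fun l y x => f l x y :=
  sum_congr rfl fun _ _ => congrArg _ (funext fun l => av_comm (f l))

end PSI

open PSI in
theorem rowPSI (hS : RowSPL) (hC : RowCAV3) (hD : RowDEG) (hT : RowTT) : RowPSI := by
  obtain ⟨C, hC0, hC⟩ := hC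
  obtain ⟨D, hD0, hD⟩ := hD
  obtain ⟨B, hB0, hT⟩ := hT
  refine ⟨2 * (D + 9 * B + 4 * C), by positivity, fun V _ _ h M W k hM hW => ?_⟩
  obtain ⟨c1, c2, c3⟩ := hC V h M W hM hW
  have hn : (2 : ℝ) ≤ Fintype.card V := by exact_mod_cast h
  have hM' : (M : ℝ) ≤ 3 * Fintype.card V := by exact_mod_cast hM
  have hW' : (W : ℝ) ≤ 3 * Fintype.card V := by exact_mod_cast hW
  have hW0 : (0 : ℝ) ≤ W := Nat.cast_nonneg _
  have e1 : sm hs M (fun T : St V => hz T * life W T) Set.univ ≤
      2 * SS M fun (l : List (Pr V)) x y =>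
      ind ((hr l).Nonempty ∧ x ≠ y ∧ eqv (hr l) x y) * life W (hr l) := by
    rw [sm_hs_eq, SS, mul_sum]
    refine sum_le_sum fun m _ => ?_
    rw [← EL_mul_left]
    exact EL_mono _ fun l => point h W (hr l)
  have e2 := SS_mono M fun l x y => hS V h W l x y
  rw [SS_add, SS_add, SS_add, SS_add, SS_add, SS_mul, SS_mul] at e2
  have t1 := hD V h M k hM
  have t2 : (SS M fun (l : List (Pr V)) x y => ind (far l x y ∧ ¬ nt l x ∧ ¬ nt l y)) ≤
      M * (B / (Fintype.card V : ℝ) ^ 2) := by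
    refine (sum_le_sum fun m hm => hT V h m ((mem_range.1 hm).le.trans hM)).trans_eq ?_
    simp
  have t2' : (W : ℝ) * (M * (B / (Fintype.card V : ℝ) ^ 2)) ≤ 9 * B := by
    have : (W : ℝ) * M ≤ 9 * (Fintype.card V : ℝ) ^ 2 := by
      nlinarith [mul_le_mul hW' hM' (Nat.cast_nonneg M) (by positivity)]
    calc (W : ℝ) * (M * (B / (Fintype.card V : ℝ) ^ 2))
        = (W * M) * (B / (Fintype.card V : ℝ) ^ 2) := by ring
      _ ≤ 9 * (Fintype.card V : ℝ) ^ 2 * (B / (Fintype.card V : ℝ) ^ 2) :=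
        mul_le_mul_of_nonneg_right this (by positivity)
      _ = 9 * B := by field_simp
  have t3 : (SS M fun (l : List (Pr V)) x y => ind (nt l x) *
      (ind (cov (hr (in2 l x)) U (zz l x)) * life W (hr (in2 l x)) * ind (tri (in2 l x) y))) ≤ C :=
    c1
  have t4 : (SS M fun (l : List (Pr V)) x y => ind (nt l y) *
      (ind (cov (hr (in2 l y)) U (zz l y)) * life W (hr (in2 l y)) * ind (tri (in2 l y) x))) ≤
      C := by rw [SS_comm]; exact c1
  have t5 : (SS M fun (l : List (Pr V)) x y => ind (nt l x) *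
      (ind (cov (hr (in2 l x)) U (zz l x)) * life W (hr (in2 l x)) *
        (ind (nt (in2 l x) y) * (chi (hr (in2 (in2 l x) y)) *
          ind (cov (hr (in2 (in2 l x) y)) U (zz (in2 l x) y)))))) ≤ C := c2
  have t6 : (SS M fun (l : List (Pr V)) x y => ind (nt l y) *
      ((ind (cov (hr (in2 l y)) U (zz l y)) -
        ind (cov (hr (in2 (in2 l y) x)) U (zz l y))) * life W (hr (in2 l y)))) ≤ C := by
    rw [SS_comm]; exact c3
  set R : ℝ := ((k : ℝ) + 1) ^ 3 / Fintype.card V + (Fintype.card V : ℝ) ^ 2 / 2 ^ k with hR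
  have hR0 : 0 ≤ R := by positivity
  have t1' : (W : ℝ) * (SS M fun (l : List (Pr V)) x y =>
      ind ((hr l).Nonempty ∧ par (hr l) x ∧ ¬ far l x y)) ≤ W * (D * R) :=
    mul_le_mul_of_nonneg_left t1 hW0
  have t2'' := (mul_le_mul_of_nonneg_left t2 hW0).trans t2'
  have hWR : 0 ≤ (W : ℝ) * R := mul_nonneg hW0 hR0
  nlinarith [mul_nonneg hB0 hWR, mul_nonneg hC0 hWR]

end Pool.Agent.MP_81f5b7_pr.SQ
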