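import Pool.Agent.MP_81f5b7_pr.SQ.Spec
import Pool.Agent.MP_81f5b7_pr.H42.Kit

/-! Quantiles of the life time are at distance `O(sqrt n)`. -/

set_option autoImplicit false

namespace Pool.Agent.MP_81f5b7_pr.SQ

open Finset Filter H42

namespace QW

theorem lower (p : ℕ → ℝ) (η : ℝ) (hη : 0 ≤ η) (W : ℕ) (h1 : ∀ i < W, η ≤ p i)
    (h2 : ∀ i < W, p i ≤ 1 - η) :
    η ^ 2 * (W : ℝ) ^ 2 ≤
      ∑ i ∈ range W, (2 * (i : ℝ) + 1) * p i - (∑ i ∈ range W, p i) ^ 2 := by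
  induction W with
  | zero => simp
  | succ W ih =>
    have ih' := ih (fun i hi => h1 i (by omega)) (fun i hi => h2 i (by omega))
    have hS : ∑ i ∈ range W, p i ≤ W * (1 - η) := by
      refine (sum_le_sum fun i hi => h2 i (by have := mem_range.1 hi; omega)).trans_eq ?_
      rw [sum_const, card_range, nsmul_eq_mul]
    have a1 := h1 W (by omega)
    have a2 := h2 W (by omega)
    have hW : (0 : ℝ) ≤ W := Nat.cast_nonneg W
    have b : η * (2 * W + 1) ≤ 2 * W + 1 - 2 * ∑ i ∈ range W, p i - p W := by nlinarith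
    have c : η * (η * (2 * W + 1)) ≤ p W * (2 * W + 1 - 2 * ∑ i ∈ range W, p i - p W) :=
      mul_le_mul a1 b (by positivity) (hη.trans a1)
    rw [sum_range_succ, sum_range_succ]
    push_cast
    nlinarith

theorem pick : ∀ᶠ n : ℕ in atTop, ∃ k : ℕ,
    ((k : ℝ) + 1) ^ 3 ≤ Real.sqrt n ∧ (n : ℝ) ^ 3 ≤ 2 ^ k := by
  have h := (tendsto_pow_const_div_const_pow_of_one_lt 6 (by norm_num : (1 : ℝ) < 2)).eventually_lt_const
    (by norm_num : (0 : ℝ) < 1 / 7 ^ 6)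
  obtain ⟨L₀, hL⟩ := eventually_atTop.1 (h.and (eventually_ge_atTop 1))
  filter_upwards [eventually_ge_atTop (2 ^ L₀)] with n hn
  have hn0 : n ≠ 0 := by have := Nat.two_pow_pos L₀; omega
  set L := Nat.log 2 n with hLdef
  have hL0 : L₀ ≤ L := Nat.le_log_of_pow_le (by norm_num) hn
  obtain ⟨h1, h2⟩ := hL L hL0
  have h3 : (2 : ℝ) ^ L ≤ n := by exact_mod_cast Nat.pow_log_le_self 2 hn0
  have h4 : (n : ℝ) ≤ 2 ^ (L + 1) := by
    exact_mod_cast (Nat.lt_pow_succ_log_self (by norm_num : 1 < 2) n).le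
  have h2' : (1 : ℝ) ≤ L := by exact_mod_cast h2
  refine ⟨3 * (L + 1), ?_, ?_⟩
  · apply Real.le_sqrt_of_sq_le
    rw [div_lt_div_iff₀ (by positivity) (by positivity)] at h1
    have h5 : ((3 * (L + 1) : ℕ) : ℝ) + 1 ≤ L * 7 := by push_cast; linarith
    calc ((((3 * (L + 1) : ℕ) : ℝ) + 1) ^ 3) ^ 2 = (((3 * (L + 1) : ℕ) : ℝ) + 1) ^ 6 := by ring
      _ ≤ ((L : ℝ) * 7) ^ 6 := pow_le_pow_left₀ (by positivity) h5 6
      _ = (L : ℝ) ^ 6 * 7 ^ 6 := by ring
      _ ≤ n := by linarith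
  · rw [mul_comm, pow_mul]
    exact pow_le_pow_left₀ (Nat.cast_nonneg n) h4 3

theorem small (s k q : ℝ) (hs : 1 ≤ s) (hk : k ≤ s) (hq : (s ^ 2) ^ 3 ≤ q) :
    k / s ^ 2 + (s ^ 2) ^ 2 / q ≤ 2 / s := by
  have h0 : 0 < s := by linarith
  have h1 : k / s ^ 2 ≤ 1 / s := by
    rw [div_le_div_iff₀ (by positivity) h0]; nlinarith
  have hq0 : 0 < q := lt_of_lt_of_le (by positivity) hq
  have h2 : (s ^ 2) ^ 2 / q ≤ 1 / s := by
    rw [div_le_div_iff₀ hq0 h0]
    have : (s ^ 2) ^ 2 * s ≤ (s ^ 2) ^ 2 * s ^ 2 :=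
      mul_le_mul_of_nonneg_left (by nlinarith) (by positivity)
    nlinarith
  have : 2 / s = 1 / s + 1 / s := by ring
  linarith

theorem fin (η C s W : ℝ) (hη : 0 < η) (hC : 0 ≤ C) (hs : 0 < s)
    (h : η ^ 2 * W ^ 2 ≤ 6 * s ^ 2 * (C * (1 + W * (2 / s)))) :
    W ≤ (18 * C / η ^ 2 + 1) * s := by
  by_contra hc
  rw [not_le] at hc
  have hA : 0 ≤ 18 * C / η ^ 2 * s := by positivity
  have h1 : s < W := by nlinarith
  have hW : 0 < W := hs.trans h1
  have e : 6 * s ^ 2 * (C * (1 + W * (2 / s))) = 6 * C * s * s + 12 * C * W * s := by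
    field_simp; ring
  have h2 : 6 * C * s * s ≤ 6 * C * s * W := mul_le_mul_of_nonneg_left h1.le (by positivity)
  have h3 : η ^ 2 * W * W ≤ 18 * C * s * W := by nlinarith
  have h4 : η ^ 2 * W ≤ 18 * C * s := le_of_mul_le_mul_right h3 hW
  have h5 : W ≤ 18 * C / η ^ 2 * s := by
    rw [div_mul_eq_mul_div, le_div_iff₀ (by positivity)]; linarith
  nlinarith

end QW

open QW in
theorem rowQW (hP : RowPSI) (hV : RowVARW) : RowQW := by
  obtain ⟨C, hC, hP⟩ := hP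
  intro η hη
  refine ⟨18 * C / η ^ 2 + 1, by positivity, ?_⟩
  filter_upwards [pick, eventually_ge_atTop 2] with n hk hn a W haW h1 h2
  obtain ⟨k, hk1, hk2⟩ := hk
  have hn' : (2 : ℝ) ≤ n := by exact_mod_cast hn
  have hcard : 2 ≤ Fintype.card (Fin n) := by simpa using hn
  have hs1 : 1 ≤ Real.sqrt n := Real.le_sqrt_of_sq_le (by linarith)
  have hs2 : Real.sqrt n ^ 2 = n := Real.sq_sqrt (by linarith)
  have hlow := lower (fun i => pp n (a + i)) η hη.le W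
    (fun i hi => h2.trans (pp_anti hn (by omega)))
    (fun i _ => (pp_anti hn (by omega : a ≤ a + i)).trans h1)
  have hvar := hV (Fin n) hcard a W Set.univ
  have hpsi := hP (Fin n) hcard (a + W) W k (by simpa using haW) (by simp; omega)
  rw [Fintype.card_fin] at hpsi
  have hsm := small (Real.sqrt n) (((k : ℝ) + 1) ^ 3) (2 ^ k) hs1 hk1 (by rw [hs2]; exact hk2)
  rw [hs2] at hsm
  have hW0 : (0 : ℝ) ≤ W := Nat.cast_nonneg W
  have hpsi' := hpsi.trans (mul_le_mul_of_nonneg_left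
    (add_le_add_right (mul_le_mul_of_nonneg_left hsm hW0) 1) hC)
  have haW' : 2 * ((a : ℝ) + W) ≤ 6 * Real.sqrt n ^ 2 := by
    have : ((a + W : ℕ) : ℝ) ≤ ((3 * n : ℕ) : ℝ) := by exact_mod_cast haW
    push_cast at this
    rw [hs2]; linarith
  refine fin η C _ W hη hC (by linarith) (hlow.trans (hvar.trans ?_))
  exact (mul_le_mul_of_nonneg_left hpsi' (by positivity)).trans
    (mul_le_mul_of_nonneg_right haW' (by positivity))

end Pool.Agent.MP_81f5b7_pr.SQ
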