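import Pool.Agent.MP_81f5b7_pr.SQ.Spec

/-! Resampling the letters that meet a fixed set. -/

set_option autoImplicit false
set_option linter.style.haveILetI false

namespace Pool.Agent.MP_81f5b7_pr.SQ

open Finset Filter H42

namespace RES

variable {V : Type} [DecidableEq V]

/-- the term of the left side -/
noncomputable def tm (Z : List V) (Ψ : List (Pr V) → List V → ℝ) (l : List (Pr V)) : ℝ :=
  ind (nd Z l) * Ψ (inn Z l) (outs Z l)

theorem tm_nonneg (Z : List V) {Ψ : List (Pr V) → List V → ℝ} (h : ∀ l z, 0 ≤ Ψ l z)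
    (l : List (Pr V)) : 0 ≤ tm Z Ψ l := mul_nonneg (ind_nonneg _) (h _ _)

theorem tm_nil (Z : List V) (Ψ : List (Pr V) → List V → ℝ) : tm Z Ψ [] = Ψ [] [] := by
  rw [tm, ind_pos (show nd Z [] from fun e he => absurd he List.not_mem_nil), one_mul]
  rfl

omit [DecidableEq V] in
theorem nd_cons (Z : List V) (e : Pr V) (l : List (Pr V)) :
    nd Z (e :: l) ↔ ¬ (e.1.1 ∈ Z ∧ e.1.2 ∈ Z) ∧ nd Z l := by
  simp only [nd, List.forall_mem_cons]

theorem tm_cons (Z : List V) {Ψ : List (Pr V) → List V → ℝ} (h : ∀ l z, 0 ≤ Ψ l z) (e : Pr V)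
    (l : List (Pr V)) : tm Z Ψ (e :: l) ≤ tm Z (fun l z => Ψ (e :: l) z) l +
      ind (e.1.1 ∈ Z) * tm Z (fun l z => Ψ l (e.1.2 :: z)) l +
      ind (e.1.2 ∈ Z) * tm Z (fun l z => Ψ l (e.1.1 :: z)) l := by
  have h1 := tm_nonneg Z (Ψ := fun l z => Ψ (e :: l) z) (fun _ _ => h _ _) l
  have h2 := tm_nonneg Z (Ψ := fun l z => Ψ l (e.1.2 :: z)) (fun _ _ => h _ _) l
  have h3 := tm_nonneg Z (Ψ := fun l z => Ψ l (e.1.1 :: z)) (fun _ _ => h _ _) l
  by_cases p : e.1.1 ∈ Z <;> by_cases q : e.1.2 ∈ Z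
  · rw [tm, ind_neg fun k => ((nd_cons Z e l).1 k).1 ⟨p, q⟩, zero_mul, ind_pos p, ind_pos q]
    linarith
  · have e1 : tm Z Ψ (e :: l) = tm Z (fun l z => Ψ l (e.1.2 :: z)) l := by
      simp [tm, nd_cons, inn, outs, tch, p, q]
    rw [e1, ind_pos p, ind_neg q]
    linarith
  · have e1 : tm Z Ψ (e :: l) = tm Z (fun l z => Ψ l (e.1.1 :: z)) l := by
      simp [tm, nd_cons, inn, outs, tch, p, q]
    rw [e1, ind_pos q, ind_neg p]
    linarith
  · have e1 : tm Z Ψ (e :: l) = tm Z (fun l z => Ψ (e :: l) z) l := by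
      simp [tm, nd_cons, inn, outs, tch, p, q]
    rw [e1, ind_neg q, ind_neg p]
    linarith

variable [Fintype V]

theorem av_mem (Z : List V) : (av fun x => ind (x ∈ Z)) ≤ Z.length / Fintype.card V := by
  rw [av_ind]
  refine div_le_div_of_nonneg_right ?_ (Nat.cast_nonneg _)
  exact_mod_cast (card_le_card fun x hx => List.mem_toFinset.2 (by simpa using hx)).trans
    (List.toFinset_card_le Z)

theorem av_hit (h : 2 ≤ Fintype.card V) (Z : List V) {g : V → ℝ} (hg : ∀ v, 0 ≤ g v) :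
    (av fun e : Pr V => ind (e.1.1 ∈ Z) * g e.1.2 + ind (e.1.2 ∈ Z) * g e.1.1) ≤
      4 * (Z.length / Fintype.card V) * av g := by
  have h1 := av_Pr_le h (f := fun x y => ind (x ∈ Z) * g y + ind (y ∈ Z) * g x)
    fun x y => add_nonneg (mul_nonneg (ind_nonneg _) (hg _)) (mul_nonneg (ind_nonneg _) (hg _))
  simp only [av_add, av_mul_left, av_mul_right] at h1 ⊢
  have h2 := mul_le_mul_of_nonneg_right (av_mem Z) (av_nonneg hg)
  linarith

omit [DecidableEq V] in
theorem sum_succ {α : Type} [Fintype α] (M : ℕ) (f : List α → ℝ) :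
    ∑ m ∈ range (M + 1), EL m f = f [] + av fun e => ∑ m ∈ range M, EL m fun l => f (e :: l) := by
  rw [sum_range_succ', av_sum, add_comm]
  rfl

/-- the building block of the right side -/
noncomputable def GG (M i : ℕ) (Ψ : List (Pr V) → List V → ℝ) : ℝ :=
  ∑ m ∈ range M, EL m fun l : List (Pr V) => EL i (Ψ l)

theorem GG_nonneg (M i : ℕ) {Ψ : List (Pr V) → List V → ℝ} (h : ∀ l z, 0 ≤ Ψ l z) :
    0 ≤ GG M i Ψ := sum_nonneg fun _ _ => EL_nonneg _ fun _ => EL_nonneg _ (h _)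

theorem GG_succ (M i : ℕ) (Ψ : List (Pr V) → List V → ℝ) :
    GG (M + 1) i Ψ = EL i (Ψ []) + av fun e => GG M i fun l z => Ψ (e :: l) z := sum_succ _ _

theorem GG_av (M i : ℕ) {Ψ : List (Pr V) → List V → ℝ} (h : ∀ l z, 0 ≤ Ψ l z) :
    (av fun v => GG M i fun l z => Ψ l (v :: z)) ≤ GG (M + 1) (i + 1) Ψ := by
  have e : (av fun v => GG M i fun l z => Ψ l (v :: z)) = GG M (i + 1) Ψ := by
    simp only [GG, av_sum, EL_succ, EL_av]
  rw [e, GG, GG, sum_range_succ]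
  exact le_add_of_nonneg_right (EL_nonneg _ fun _ => EL_nonneg _ (h _))

theorem main (h : 2 ≤ Fintype.card V) (Z : List V) (M : ℕ) :
    ∀ Ψ : List (Pr V) → List V → ℝ, (∀ l z, 0 ≤ Ψ l z) → ∑ m ∈ range M, EL m (tm Z Ψ) ≤
      ∑ i ∈ range (M + 1), (M.choose i : ℝ) *
        ((4 * ((Z.length : ℝ) / Fintype.card V)) ^ i * GG M i Ψ) := by
  obtain ⟨b, hb⟩ : ∃ b : ℝ, b = 4 * ((Z.length : ℝ) / Fintype.card V) := ⟨_, rfl⟩
  have b0 : 0 ≤ b := by rw [hb]; positivity
  rw [← hb]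
  induction M with
  | zero => intro Ψ _; simp [GG]
  | succ M ih =>
    intro Ψ hΨ
    obtain ⟨g, hg⟩ : ∃ g : V → ℝ, g = fun v => ∑ m ∈ range M,
      EL m (tm Z fun l z => Ψ l (v :: z)) := ⟨_, rfl⟩
    have g0 : ∀ v, 0 ≤ g v := fun v => by
      rw [hg]
      exact sum_nonneg fun _ _ => EL_nonneg _ (tm_nonneg Z fun _ _ => hΨ _ _)
    have h1 : (av fun e => ∑ m ∈ range M, EL m fun l => tm Z Ψ (e :: l)) ≤
        av fun e : Pr V => (∑ m ∈ range M, EL m (tm Z fun l z => Ψ (e :: l) z)) +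
          (ind (e.1.1 ∈ Z) * g e.1.2 + ind (e.1.2 ∈ Z) * g e.1.1) := by
      refine av_mono fun e => ?_
      simp only [hg, mul_sum, ← sum_add_distrib]
      refine sum_le_sum fun m _ => (EL_mono m (tm_cons Z hΨ e)).trans_eq ?_
      rw [EL_add, EL_add, EL_mul_left, EL_mul_left, add_assoc]
    have h2 := av_hit h Z g0
    rw [← hb] at h2
    have h3 : av g ≤ ∑ i ∈ range (M + 1), (M.choose i : ℝ) * (b ^ i * GG (M + 1) (i + 1) Ψ) := by
      rw [hg]
      refine (av_mono fun v => ih _ fun _ _ => hΨ _ _).trans ?_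
      rw [av_sum]
      refine sum_le_sum fun i _ => ?_
      rw [av_mul_left, av_mul_left]
      exact mul_le_mul_of_nonneg_left (mul_le_mul_of_nonneg_left (GG_av M i hΨ) (pow_nonneg b0 _))
        (Nat.cast_nonneg _)
    have h4 : (av fun e : Pr V => ∑ m ∈ range M, EL m (tm Z fun l z => Ψ (e :: l) z)) ≤
        ∑ i ∈ range (M + 1), (M.choose i : ℝ) * (b ^ i * GG (M + 1) i Ψ) -
          ∑ i ∈ range (M + 1), (M.choose i : ℝ) * (b ^ i * EL i (Ψ [])) := by
      refine (av_mono fun e => ih _ fun _ _ => hΨ _ _).trans_eq ?_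
      rw [av_sum, ← sum_sub_distrib]
      refine sum_congr rfl fun i _ => ?_
      rw [av_mul_left, av_mul_left, GG_succ]
      ring
    have h5 : Ψ [] [] ≤ ∑ i ∈ range (M + 1), (M.choose i : ℝ) * (b ^ i * EL i (Ψ [])) := by
      refine le_of_eq_of_le (by simp) (single_le_sum
        (f := fun i => (M.choose i : ℝ) * (b ^ i * EL i (Ψ []))) (fun i _ => ?_)
        (mem_range.2 (Nat.succ_pos M)))
      exact mul_nonneg (Nat.cast_nonneg _) (mul_nonneg (pow_nonneg b0 _) (EL_nonneg _ (hΨ _)))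
    have h6 := Finset.sum_choose_succ_mul (fun i _ => b ^ i * GG (M + 1) i Ψ) M
    have h7 : ∑ i ∈ range (M + 1), (M.choose i : ℝ) * (b ^ (i + 1) * GG (M + 1) (i + 1) Ψ) =
        b * ∑ i ∈ range (M + 1), (M.choose i : ℝ) * (b ^ i * GG (M + 1) (i + 1) Ψ) := by
      rw [mul_sum]
      exact sum_congr rfl fun i _ => by ring
    rw [av_add] at h1
    rw [sum_succ, tm_nil, h6, h7]
    linarith [mul_le_mul_of_nonneg_left h3 b0]

end RES

open RES in
theorem rowRES : RowRES := by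
  intro V _ _ h M Z Ψ hM hΨ
  refine (main h Z M Ψ hΨ).trans (sum_le_sum fun i _ => ?_)
  rw [← mul_assoc]
  refine mul_le_mul_of_nonneg_right ?_ (GG_nonneg M i hΨ)
  have n0 : (0 : ℝ) < Fintype.card V := by exact_mod_cast (by omega : 0 < Fintype.card V)
  have hM' : (M : ℝ) ≤ 3 * Fintype.card V := by exact_mod_cast hM
  have h1 : (M : ℝ) * (4 * ((Z.length : ℝ) / Fintype.card V)) ≤ 12 * Z.length := by
    refine (mul_le_mul_of_nonneg_right hM' (by positivity)).trans_eq ?_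
    field_simp
    ring
  refine (mul_le_mul_of_nonneg_right (Nat.choose_le_pow_div (α := ℝ) i M)
    (by positivity)).trans ?_
  rw [div_mul_eq_mul_div, ← mul_pow]
  gcongr

end Pool.Agent.MP_81f5b7_pr.SQ
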