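import Pool.Agent.MP_81f5b7_pr.SQ.Spec

/-! Resampling two layers around a vertex. -/

set_option autoImplicit false
set_option linter.style.haveILetI false

namespace Pool.Agent.MP_81f5b7_pr.SQ

open Finset H42

namespace RES2

theorem nd_single {V : Type} [DecidableEq V] (y : V) (l : List (Pr V)) : nd [y] l := by
  intro e _ h
  have h1 := List.mem_singleton.1 h.1
  have h2 := List.mem_singleton.1 h.2
  exact e.2 (h1.trans h2.symm)

theorem inner_le {K H : ℝ} (hK : 0 ≤ K) (hH : 0 ≤ H) (M d : ℕ) (G : ℕ → ℝ)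
    (hG : ∀ i, G i ≤ H * K ^ i) :
    ∑ i ∈ range (M + 1), (12 * (d : ℝ)) ^ i / i.factorial * G i ≤
      Real.exp (12 * K) ^ d * H := by
  calc ∑ i ∈ range (M + 1), (12 * (d : ℝ)) ^ i / i.factorial * G i
      ≤ ∑ i ∈ range (M + 1), (d * (12 * K)) ^ i / i.factorial * H := by
        refine sum_le_sum fun i _ => ?_
        refine (mul_le_mul_of_nonneg_left (hG i) (by positivity)).trans_eq ?_
        simp only [mul_pow]; ring
    _ ≤ Real.exp (d * (12 * K)) * H := by
        rw [← sum_mul]
        exact mul_le_mul_of_nonneg_right (Real.sum_le_exp_of_nonneg (by positivity) _) hH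
    _ = _ := by rw [Real.exp_nat_mul]

end RES2

theorem rowRES2 (hR : RowRES) : RowRES2 := by
  intro K hK
  refine ⟨Real.exp (12 * Real.exp (12 * K)), (Real.exp_pos _).le, ?_⟩
  intro V _ _ hV M y Φ H hM h0 hH
  haveI := nonempty_of_two hV
  have hH0 : 0 ≤ H := by
    have := hH 0
    rw [pow_zero, mul_one] at this
    exact le_trans (sum_nonneg fun m _ => EL_nonneg _ fun l => EL_nonneg _ (h0 l)) this
  have h1 := hR V hV M [y] (fun l s => ind (nd s l) * Φ (inn s l) (outs s l)) hM
    fun l s => mul_nonneg (ind_nonneg _) (h0 _ _)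
  simp only [ind_pos (RES2.nd_single y _), one_mul, List.length_singleton, Nat.cast_one,
    mul_one] at h1
  refine le_trans h1 ?_
  have h2 : ∀ d : ℕ, ∑ m ∈ range M, EL m (fun l : List (Pr V) =>
      EL d fun s : List V => ind (nd s l) * Φ (inn s l) (outs s l)) ≤
        Real.exp (12 * K) ^ d * H := by
    intro d
    simp only [EL_comm _ d]
    rw [← EL_sum]
    refine EL_le d fun s hs => ?_
    refine (hR V hV M s Φ hM h0).trans ?_
    rw [hs]
    exact RES2.inner_le hK hH0 M d _ hH
  calc ∑ d ∈ range (M + 1), (12 : ℝ) ^ d / d.factorial * ∑ m ∈ range M, EL m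
        (fun l : List (Pr V) => EL d fun s : List V => ind (nd s l) * Φ (inn s l) (outs s l))
      ≤ ∑ d ∈ range (M + 1), (12 * Real.exp (12 * K)) ^ d / d.factorial * H := by
        refine sum_le_sum fun d _ => ?_
        refine (mul_le_mul_of_nonneg_left (h2 d) (by positivity)).trans_eq ?_
        simp only [mul_pow]; ring
    _ ≤ _ := by
        rw [← sum_mul]
        exact mul_le_mul_of_nonneg_right (Real.sum_le_exp_of_nonneg (by positivity) _) hH0

end Pool.Agent.MP_81f5b7_pr.SQ
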