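import Pool.Agent.MP_81f5b7_pr.SQ.Spec
import Pool.Agent.MP_81f5b7_pr.H42.Kit

/-! Covering probability against life time. -/

set_option autoImplicit false

namespace Pool.Agent.MP_81f5b7_pr.SQ

open Finset Filter H42

namespace RL

theorem root_pow {a : ℝ} (ha : 0 ≤ a) : (a ^ (1 / 29 : ℝ)) ^ 29 = a := by
  rw [← Real.rpow_natCast, ← Real.rpow_mul ha]
  norm_num

theorem pow_sub_le {t u : ℝ} (hu : 0 ≤ u) (h : u ≤ t) (n : ℕ) :
    t ^ (n + 1) - u ^ (n + 1) ≤ (n + 1) * t ^ n * (t - u) := by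
  induction n with
  | zero => simp
  | succ n ih =>
    have ht : 0 ≤ t := hu.trans h
    have h1 : u ^ (n + 1) ≤ t ^ (n + 1) := pow_le_pow_left₀ hu h _
    have h2 : t * (t ^ (n + 1) - u ^ (n + 1)) ≤ t * ((n + 1) * t ^ n * (t - u)) :=
      mul_le_mul_of_nonneg_left ih ht
    have h3 : u ^ (n + 1) * (t - u) ≤ t ^ (n + 1) * (t - u) :=
      mul_le_mul_of_nonneg_right h1 (sub_nonneg.2 h)
    have e1 : t ^ (n + 1 + 1) - u ^ (n + 1 + 1) =
        t * (t ^ (n + 1) - u ^ (n + 1)) + u ^ (n + 1) * (t - u) := by ring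
    have e2 : ((n + 1 : ℕ) + 1 : ℝ) * t ^ (n + 1) * (t - u) =
        t * ((n + 1) * t ^ n * (t - u)) + t ^ (n + 1) * (t - u) := by push_cast; ring
    rw [e1, e2]
    linarith

end RL

theorem rowRL (hC : H42.RowLC) : RowRL := by
  intro V _ _ hV j W S S' hW hS
  have := nonempty_of_two hV
  have hr0 := rho_nonneg S U j
  have hr0' := rho_nonneg S' U j
  have hle : rho S' U j ≤ rho S U j := rho_mono hS U j
  have hK : (0 : ℝ) < (2 ^ 30) ^ j := by positivity
  have hl := life_nonneg W S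
  have htu : rho S' U j ^ (1 / 29 : ℝ) ≤ rho S U j ^ (1 / 29 : ℝ) :=
    Real.rpow_le_rpow hr0' hle (by norm_num)
  have hu0 : 0 ≤ rho S' U j ^ (1 / 29 : ℝ) := Real.rpow_nonneg hr0' _
  have ht1 : rho S U j ^ (1 / 29 : ℝ) ≤ 1 :=
    Real.rpow_le_one hr0 (rho_le_one S U j) (by norm_num)
  have et := RL.root_pow hr0
  have eu := RL.root_pow hr0'
  generalize rho S' U j ^ (1 / 29 : ℝ) = u at *
  generalize rho S U j ^ (1 / 29 : ℝ) = t at *
  have ht0 : 0 ≤ t := hu0.trans htu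
  have key : t ^ 28 * life W S ≤ (2 ^ 30) ^ j := by
    rcases ht0.eq_or_lt with h0 | h0
    · rw [← h0]
      simp
    · have h1 := hC V hV j t S W h0 ht1 hW
      have h2 : life W S = cnt W (fun T => t ^ 29 ≤ rho T U j) S :=
        life_eq_cnt W (fun _ _ h hp => hp.trans (rho_mono h U j)) et.le
      rw [← h2, le_div_iff₀ (by positivity)] at h1
      linarith
  constructor
  · rw [← et]
    have h1 : t * (t ^ 28 * life W S) ≤ 1 * (2 ^ 30) ^ j :=
      mul_le_mul ht1 key (by positivity) zero_le_one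
    calc t ^ 29 * life W S = t * (t ^ 28 * life W S) := by ring
      _ ≤ _ := by linarith
  · rw [← et, ← eu]
    have h1 := RL.pow_sub_le hu0 htu 28
    have h2 := mul_le_mul_of_nonneg_right h1 hl
    have h3 := mul_le_mul_of_nonneg_right key (sub_nonneg.2 htu)
    calc (t ^ 29 - u ^ 29) * life W S ≤ ((28 : ℕ) + 1 : ℝ) * t ^ 28 * (t - u) * life W S := h2
      _ = 29 * (t ^ 28 * life W S * (t - u)) := by push_cast; ring
      _ ≤ 29 * ((2 ^ 30) ^ j * (t - u)) := by linarith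
      _ = _ := by ring

end Pool.Agent.MP_81f5b7_pr.SQ
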