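import Pool.Agent.MP_81f5b7_pr.SQ.Spec
import Pool.Agent.MP_81f5b7_pr.H42.BETA

/-! Two distant triangles are rare. -/

set_option autoImplicit false
set_option linter.style.haveILetI false

namespace Pool.Agent.MP_81f5b7_pr.SQ

open Finset H42

namespace TT

section
variable {V : Type} [DecidableEq V]

theorem mem_star {l : List (Pr V)} {y u : V} (h : adj l y u) : u ∈ star l y := by
  obtain ⟨e, he, h⟩ := h
  unfold star
  induction l with
  | nil => simp at he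
  | cons f l ih =>
    rcases List.mem_cons.1 he with rfl | he
    · rcases h with h | h
      · simp [outs, h]
      · have hne : u ≠ y := by have := e.2; rw [h] at this; exact this
        simp [outs, h, hne]
    · have := ih he
      unfold outs
      split_ifs
      · exact List.mem_cons_of_mem _ this
      · exact List.mem_cons_of_mem _ this
      · exact this

theorem sep {l : List (Pr V)} {x y p q : V} (hf : far l x y) (h : adj l p q)
    (hp : p ∈ x :: star l x) : p ∉ y :: star l y ∧ q ∉ y :: star l y := by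
  obtain ⟨e, he, h⟩ := h
  have h1 := hf e he
  rcases h with h | h
  · refine ⟨fun h2 => h1 ⟨Or.inl ?_, Or.inl ?_⟩, fun h2 => h1 ⟨Or.inl ?_, Or.inr ?_⟩⟩ <;>
      rw [h] <;> assumption
  · refine ⟨fun h2 => h1 ⟨Or.inr ?_, Or.inr ?_⟩, fun h2 => h1 ⟨Or.inr ?_, Or.inl ?_⟩⟩ <;>
      rw [h] <;> assumption

/-- two triangles with no common vertex -/
def two (l : List (Pr V)) (x y u w a b : V) : Prop :=
  (adj l x u ∧ adj l x w ∧ adj l u w) ∧ (adj l y a ∧ adj l y b ∧ adj l a b) ∧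
    (x ≠ y ∧ x ≠ a ∧ x ≠ b) ∧ (u ≠ y ∧ u ≠ a ∧ u ≠ b) ∧ (w ≠ y ∧ w ≠ a ∧ w ≠ b)

theorem two_of_far {l : List (Pr V)} {x y : V} (hf : far l x y) (hx : tri l x) (hy : tri l y) :
    ∃ u w a b, two l x y u w a b := by
  obtain ⟨u, w, h1, h2, h3⟩ := hx
  obtain ⟨a, b, h4, h5, h6⟩ := hy
  have s1 := sep hf h1 List.mem_cons_self
  have s2 := sep hf h2 List.mem_cons_self
  have my : y ∈ y :: star l y := List.mem_cons_self
  have ma : a ∈ y :: star l y := List.mem_cons_of_mem _ (mem_star h4)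
  have mb : b ∈ y :: star l y := List.mem_cons_of_mem _ (mem_star h5)
  have k : ∀ {c d : V}, c ∉ y :: star l y → d ∈ y :: star l y → c ≠ d :=
    fun hc hd h => hc (h ▸ hd)
  exact ⟨u, w, a, b, ⟨h1, h2, h3⟩, ⟨h4, h5, h6⟩, ⟨k s1.1 my, k s1.1 ma, k s1.1 mb⟩,
    ⟨k s1.2 my, k s1.2 ma, k s1.2 mb⟩, ⟨k s2.2 my, k s2.2 ma, k s2.2 mb⟩⟩

end

variable {V : Type} [Fintype V] [DecidableEq V]

theorem many (h : 2 ≤ Fintype.card V) (m k : ℕ) (p q : Fin k → V)
    (hd : ∀ i j, i ≠ j → ¬ (p i = p j ∧ q i = q j) ∧ ¬ (p i = q j ∧ q i = p j)) :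
    EL m (fun l : List (Pr V) => ind (∀ i, adj l (p i) (q i))) ≤
      (m * (2 / (Fintype.card V * (Fintype.card V - 1)))) ^ k := by
  haveI := nonempty_Pr h
  have h2 : (2 : ℝ) ≤ Fintype.card V := by exact_mod_cast h
  have hr : (0 : ℝ) ≤ 2 / (Fintype.card V * (Fintype.card V - 1)) :=
    div_nonneg (by norm_num) (mul_nonneg (by linarith) (by linarith))
  have := BETA.meet (α := Pr V) (ι := Fin k)
    (fun i e => e.1 = (p i, q i) ∨ e.1 = (q i, p i)) hr
    (by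
      intro i j hij a ha hb
      obtain ⟨d1, d2⟩ := hd i j hij
      rcases ha with ha | ha <;> rcases hb with hb | hb <;> rw [ha, Prod.mk.injEq] at hb
      · exact d1 hb
      · exact d2 hb
      · exact d2 ⟨hb.2, hb.1⟩
      · exact d1 ⟨hb.2, hb.1⟩)
    (fun i => BETA.mass _ _) m univ
  rw [card_univ, Fintype.card_fin] at this
  exact le_trans (EL_mono m fun l => ind_mono fun hh i _ => hh i) this

theorem six (h : 2 ≤ Fintype.card V) (m : ℕ) (x y u w a b : V) :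
    EL m (fun l : List (Pr V) => ind (two l x y u w a b)) ≤
      (m * (2 / (Fintype.card V * (Fintype.card V - 1)))) ^ 6 := by
  haveI := nonempty_Pr h
  have h2 : (2 : ℝ) ≤ Fintype.card V := by exact_mod_cast h
  have hr : (0 : ℝ) ≤ 2 / (Fintype.card V * (Fintype.card V - 1)) :=
    div_nonneg (by norm_num) (mul_nonneg (by linarith) (by linarith))
  by_cases hne : (x ≠ u ∧ x ≠ w ∧ u ≠ w) ∧ (y ≠ a ∧ y ≠ b ∧ a ≠ b) ∧
    (x ≠ y ∧ x ≠ a ∧ x ≠ b) ∧ (u ≠ y ∧ u ≠ a ∧ u ≠ b) ∧ (w ≠ y ∧ w ≠ a ∧ w ≠ b)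
  · obtain ⟨⟨n1, n2, n3⟩, ⟨n4, n5, n6⟩, ⟨n7, n8, n9⟩, ⟨n10, n11, n12⟩, ⟨n13, n14, n15⟩⟩ := hne
    have := many h m 6 ![x, x, u, y, y, a] ![u, w, w, a, b, b] (by
      intro i j hij
      fin_cases i <;> fin_cases j <;>
        simp [n1, n2, n3, n4, n5, n6, n7, n8, n9, n10, n11, n12, n13, n14, n15,
          n1.symm, n2.symm, n3.symm, n4.symm, n5.symm, n6.symm, n7.symm, n8.symm, n9.symm,
          n10.symm, n11.symm, n12.symm, n13.symm, n14.symm, n15.symm] at hij ⊢)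
    refine le_trans (EL_mono m fun l => ind_mono ?_) this
    rintro ⟨⟨a1, a2, a3⟩, ⟨a4, a5, a6⟩, -⟩ i
    fin_cases i
    · exact a1
    · exact a2
    · exact a3
    · exact a4
    · exact a5
    · exact a6
  · refine EL_le m fun l _ => ?_
    rw [ind_neg fun hh : two l x y u w a b => hne
      ⟨⟨BETA.adj_ne hh.1.1, BETA.adj_ne hh.1.2.1, BETA.adj_ne hh.1.2.2⟩,
        ⟨BETA.adj_ne hh.2.1.1, BETA.adj_ne hh.2.1.2.1, BETA.adj_ne hh.2.1.2.2⟩, hh.2.2⟩]
    positivity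

end TT

theorem rowTT (hK : RowKEY) : RowTT := by
  refine ⟨12 ^ 6, by norm_num, fun V _ _ h m hm => ?_⟩
  haveI := nonempty_of_two h
  have h2 : (2 : ℝ) ≤ Fintype.card V := by exact_mod_cast h
  have hm' : (m : ℝ) ≤ 3 * Fintype.card V := by exact_mod_cast hm
  set n : ℝ := (Fintype.card V : ℝ) with hn
  have h3 : m * (2 / (n * (n - 1))) ≤ 12 / n := by
    rw [mul_div_assoc', div_le_div_iff₀ (by nlinarith) (by linarith)]
    nlinarith [mul_le_mul_of_nonneg_right hm' (by linarith : (0 : ℝ) ≤ n)]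
  have h4 : (m * (2 / (n * (n - 1)))) ^ 6 ≤ (12 / n) ^ 6 :=
    pow_le_pow_left₀ (mul_nonneg (Nat.cast_nonneg _)
      (div_nonneg (by norm_num) (by nlinarith))) h3 6
  rw [EL_av]
  refine av_le fun x => ?_
  rw [EL_av]
  refine av_le fun y => ?_
  have h5 : ∀ l : List (Pr V), ind (far l x y ∧ ¬ nt l x ∧ ¬ nt l y) ≤
      ∑ p : V × V × V × V, ind (TT.two l x y p.1 p.2.1 p.2.2.1 p.2.2.2) := fun l => by
    refine le_trans (ind_mono fun hh => ?_)
      (ind_exists_le univ fun p : V × V × V × V => TT.two l x y p.1 p.2.1 p.2.2.1 p.2.2.2)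
    obtain ⟨u, w, a, b, h6⟩ :=
      TT.two_of_far hh.1 ((hK V l x).2.2 hh.2.1) ((hK V l y).2.2 hh.2.2)
    exact ⟨(u, w, a, b), mem_univ _, h6⟩
  refine (EL_mono m h5).trans ?_
  rw [EL_sum]
  refine (sum_le_sum fun p _ => (TT.six h m x y p.1 p.2.1 p.2.2.1 p.2.2.2).trans h4).trans_eq ?_
  rw [sum_const, card_univ, Fintype.card_prod, Fintype.card_prod, Fintype.card_prod, nsmul_eq_mul,
    Nat.cast_mul, Nat.cast_mul, Nat.cast_mul, ← hn]
  field_simp

end Pool.Agent.MP_81f5b7_pr.SQ
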