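import Pool.Agent.MP_81f5b7_pr.SQ.Spec
import Pool.Agent.MP_81f5b7_pr.H42.VAR

/-! Row VARW: variance of the life time inside a window. -/

set_option autoImplicit false
set_option linter.style.haveILetI false

namespace Pool.Agent.MP_81f5b7_pr.SQ

open Finset H42

namespace VARW

variable {V : Type} [Fintype V] [DecidableEq V]

omit [Fintype V] [DecidableEq V] in
theorem foldl_hs (l : List (Pr V)) (S : St V) (e : Pr V) :
    l.foldl hs (hs S e) = hs (l.foldl hs S) e := by
  induction l generalizing S with
  | nil => rfl
  | cons f l ih => rw [List.foldl_cons, List.foldl_cons, hs_comm, ih]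

theorem it_hs (a : ℕ) (f : St V → ℝ) (S : St V) (e : Pr V) :
    it hs a f (hs S e) = it hs a (fun T => f (hs T e)) S := by
  simp only [it, foldl_hs]

theorem sum_al (a W : ℕ) (c : ℕ → ℝ) (S : St V) :
    ∑ i ∈ range W, c i * al (a + i) S =
      it hs a (fun T => ∑ i ∈ range W, c i * al i T) S := by
  rw [it, EL_sum]
  refine sum_congr rfl fun i _ => ?_
  rw [EL_mul_left, al, it_add]
  rfl

theorem main (h : 2 ≤ Fintype.card V) (W a : ℕ) (S : St V) :
    it hs a (VAR.Q W) S - it hs a (life W) S ^ 2 ≤
      ((a : ℝ) + W) * sm hs (a + W) (fun T => av fun e => VAR.ph W e T) S := by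
  haveI := nonempty_Pr h
  have hψ : ∀ T : St V, 0 ≤ av fun e => VAR.ph W e T :=
    fun T => av_nonneg fun e => VAR.ph_nonneg _ _ _
  induction a generalizing S with
  | zero => simpa using VAR.var_le h W W le_rfl S
  | succ a ih =>
    have h1 : (av fun e => it hs a (VAR.Q W) (hs S e) - it hs a (life W) (hs S e) ^ 2) ≤
        av fun e => ((a : ℝ) + W) *
          sm hs (a + W) (fun T => av fun e => VAR.ph W e T) (hs S e) :=
      av_mono fun e => ih _
    rw [av_sub, av_mul_left] at h1
    have h2 : ∀ e : Pr V, (it hs a (life W) S - it hs a (life W) (hs S e)) ^ 2 ≤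
        it hs a (sm hs W (VAR.ph W e)) S := by
      intro e
      rw [it_hs, ← it_fun_sub]
      exact (EL_sq_le a _).trans (EL_mono a fun l => VAR.dl_sq h W e W le_rfl _)
    have h3 : (av fun e => it hs a (sm hs W (VAR.ph W e)) S) ≤
        sm hs (a + W) (fun T => av fun e => VAR.ph W e T) S := by
      have e1 : sm hs W (fun T : St V => av fun e => VAR.ph W e T) =
          fun T => av fun e => sm hs W (VAR.ph W e) T := funext fun T => sm_av hs W _ T
      rw [sm_split, e1, it_av]
      have := sm_nonneg hs a hψ S
      linarith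
    have h4 := (av_mono h2).trans h3
    have h5 : (fun e : Pr V => (it hs a (life W) S - it hs a (life W) (hs S e)) ^ 2) =
        fun e => it hs a (life W) S ^ 2 - (2 * it hs a (life W) S) * it hs a (life W) (hs S e) +
          it hs a (life W) (hs S e) ^ 2 := by
      funext e
      ring
    rw [h5, av_add, av_sub, av_mul_left, av_const] at h4
    have h6 := sm_mono_left hs (Nat.le_succ (a + W)) hψ S
    have h7 := sm_succ hs (a + W) (fun T => av fun e => VAR.ph W e T) S
    have h8 := hψ S
    have h9 : (0 : ℝ) ≤ (a : ℝ) + W := by positivity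
    rw [it_succ, it_succ, show a + 1 + W = a + W + 1 by ring]
    push_cast
    simp only [Nat.succ_eq_add_one] at h6
    nlinarith [sq_nonneg (it hs a (life W) S - av fun e => it hs a (life W) (hs S e)),
      mul_nonneg h9 h8]

end VARW

theorem rowVARW : RowVARW := by
  intro V _ _ h a W S
  have h1 := VARW.main h W a S
  have e1 : (fun T : St V => av fun e => VAR.ph W e T) = fun T => 2 * (hz T * life W T) := by
    funext T
    simp only [VAR.ph, av_mul_left, av_mul_right, hz]
  have e2 : ∑ i ∈ range W, (2 * (i : ℝ) + 1) * al (a + i) S = it hs a (VAR.Q W) S :=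
    VARW.sum_al a W (fun i => 2 * (i : ℝ) + 1) S
  have e3 : ∑ i ∈ range W, al (a + i) S = it hs a (life W) S := by
    have := VARW.sum_al a W (fun _ => (1 : ℝ)) S
    simp only [one_mul] at this
    exact this
  rw [e1, sm_mul_left] at h1
  rw [e2, e3]
  linarith

end Pool.Agent.MP_81f5b7_pr.SQ
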