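import Pool.Agent.MP_81f5b7_pr.SQ.Spec

/-! The drift of a monotone function under the letters of one more vertex. -/

set_option autoImplicit false
set_option linter.style.haveILetI false

namespace Pool.Agent.MP_81f5b7_pr.SQ

open Finset H42

namespace VD

variable {V : Type} [DecidableEq V]

/-- lazy step -/
def lz (Z : List V) (S : St V) (e : Pr V) : St V := if tch Z e then S else hs S e

/-- the value after the letters that avoid `Z` -/
def A (φ : St V → ℝ) (Z : List V) (S : St V) (l : List (Pr V)) : ℝ := φ ((inn Z l).foldl hs S)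

theorem A_cons (φ : St V → ℝ) (Z : List V) (S : St V) (e : Pr V) (l : List (Pr V)) :
    A φ Z S (e :: l) = A φ Z (lz Z S e) l := by
  unfold A lz inn
  by_cases h : tch Z e <;> simp [h]

theorem A_le {φ : St V → ℝ} (hm : ∀ S T : St V, T ⊆ S → φ S ≤ φ T) (Z : List V) (v : V)
    (S : St V) (l : List (Pr V)) : A φ (v :: Z) S l ≤ A φ Z S l := by
  refine hm _ _ fun σ hσ => mem_foldl_hs.2 ⟨(mem_foldl_hs.1 hσ).1, fun e he => ?_⟩
  refine (mem_foldl_hs.1 hσ).2 e ?_
  simp only [inn, List.mem_filter, decide_eq_true_eq, tch, List.mem_cons] at he ⊢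
  tauto

theorem step {φ : St V → ℝ} (hm : ∀ S T : St V, T ⊆ S → φ S ≤ φ T) (Z : List V) (v : V)
    (S : St V) (e : Pr V) (l : List (Pr V)) :
    A φ Z S (e :: l) - A φ (v :: Z) S (e :: l) ≤
      (A φ Z (lz Z S e) l - A φ (v :: Z) (lz Z S e) l) +
        ind (e.1.1 = v ∨ e.1.2 = v) * (A φ Z S l - A φ (v :: Z) S l) +
        ind (e.1.1 = v ∨ e.1.2 = v) * (A φ Z (lz Z S e) l - A φ Z S l) := by
  rw [A_cons, A_cons]
  have a := A_le hm Z v S l
  have b := A_le hm Z v (lz Z S e) l
  by_cases hv : e.1.1 = v ∨ e.1.2 = v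
  · have e1 : lz (v :: Z) S e = S := if_pos (by
      simp only [tch, List.mem_cons]
      tauto)
    rw [ind_pos hv, e1]
    linarith
  · have e1 : lz (v :: Z) S e = lz Z S e := by
      unfold lz
      refine if_congr ?_ rfl rfl
      simp only [tch, List.mem_cons]
      tauto
    rw [ind_neg hv, e1]
    linarith

omit [DecidableEq V] in
theorem ind_split (e : Pr V) (v : V) :
    ind (e.1.1 = v ∨ e.1.2 = v) = ind (e.1.1 = v) + ind (e.1.2 = v) := by
  have := e.2
  by_cases h1 : e.1.1 = v <;> by_cases h2 : e.1.2 = v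
  · exact absurd (h1.trans h2.symm) this
  · simp [ind, h1, h2]
  · simp [ind, h1, h2]
  · simp [ind, h1, h2]

variable [Fintype V]

theorem sum_ind (v : V) : ∑ x : V, ind (x = v) = 1 := by
  rw [sum_eq_single v (fun x _ hx => ind_neg hx) (fun hv => absurd (mem_univ v) hv), ind_pos rfl]

theorem sum_ind' (v : V) : ∑ x : V, ind (v = x) = 1 := by
  simp only [eq_comm (a := v), sum_ind]

theorem av_v (e : Pr V) :
    (av fun v : V => ind (e.1.1 = v ∨ e.1.2 = v)) = 2 / (Fintype.card V : ℝ) := by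
  simp only [ind_split, av, sum_add_distrib, sum_ind']
  norm_num

theorem av_e (h : 2 ≤ Fintype.card V) (v : V) :
    (av fun e : Pr V => ind (e.1.1 = v ∨ e.1.2 = v)) = 2 / (Fintype.card V : ℝ) := by
  have h2 : (2 : ℝ) ≤ Fintype.card V := by exact_mod_cast h
  have h0 : (Fintype.card V : ℝ) ≠ 0 := by linarith
  have h1 : (Fintype.card V : ℝ) - 1 ≠ 0 := by linarith
  simp only [ind_split]
  rw [av_Pr (fun x y => ind (x = v) + ind (y = v))]
  simp only [sum_add_distrib, sum_const, card_univ, nsmul_eq_mul, ← mul_sum, sum_ind]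
  field_simp
  ring

theorem main (h : 2 ≤ Fintype.card V) {φ : St V → ℝ} (h0 : ∀ S, 0 ≤ φ S) (h1 : ∀ S, φ S ≤ 1)
    (hm : ∀ S T : St V, T ⊆ S → φ S ≤ φ T) (Z : List V) (M : ℕ) : ∀ S : St V,
    (av fun v => ∑ m ∈ range M, EL m fun l : List (Pr V) => A φ Z S l - A φ (v :: Z) S l) ≤
      (1 + 2 / (Fintype.card V : ℝ)) ^ M - 1 := by
  haveI := nonempty_Pr h
  haveI := nonempty_of_two h
  have hq : 0 ≤ 2 / (Fintype.card V : ℝ) := by positivity
  induction M with
  | zero => intro S; simp [av_zero]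
  | succ M ih =>
    intro S
    have e0 : ∀ v : V, A φ Z S [] - A φ (v :: Z) S [] = 0 := fun v => by simp [A, inn]
    simp only [sum_range_succ', EL_succ, EL_zero, e0, add_zero]
    have b1 : (av fun v => ∑ m ∈ range M, av fun e : Pr V => EL m fun l =>
        A φ Z S (e :: l) - A φ (v :: Z) S (e :: l)) ≤
        av fun v => ∑ m ∈ range M, av fun e : Pr V =>
          (EL m fun l => A φ Z (lz Z S e) l - A φ (v :: Z) (lz Z S e) l) +
          ind (e.1.1 = v ∨ e.1.2 = v) * (EL m fun l => A φ Z S l - A φ (v :: Z) S l) +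
          ind (e.1.1 = v ∨ e.1.2 = v) * (EL m (A φ Z (lz Z S e)) - EL m (A φ Z S)) := by
      refine av_mono fun v => sum_le_sum fun m _ => av_mono fun e => ?_
      rw [← EL_sub, ← EL_mul_left, ← EL_mul_left, ← EL_add, ← EL_add]
      exact EL_mono _ fun l => step hm Z v S e l
    refine b1.trans ?_
    simp only [av_add, sum_add_distrib]
    have c1 : (av fun v => ∑ m ∈ range M, av fun e : Pr V =>
        EL m fun l => A φ Z (lz Z S e) l - A φ (v :: Z) (lz Z S e) l) ≤
        (1 + 2 / (Fintype.card V : ℝ)) ^ M - 1 := by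
      simp only [← av_sum]
      rw [av_comm]
      exact av_le fun e => ih _
    have c2 : (av fun v => ∑ m ∈ range M, av fun e : Pr V =>
        ind (e.1.1 = v ∨ e.1.2 = v) * EL m fun l => A φ Z S l - A φ (v :: Z) S l) ≤
        2 / (Fintype.card V : ℝ) * ((1 + 2 / (Fintype.card V : ℝ)) ^ M - 1) := by
      simp only [av_mul_right, av_e h, ← mul_sum, av_mul_left]
      exact mul_le_mul_of_nonneg_left (ih S) hq
    have c3 : (av fun v => ∑ m ∈ range M, av fun e : Pr V =>
        ind (e.1.1 = v ∨ e.1.2 = v) * (EL m (A φ Z (lz Z S e)) - EL m (A φ Z S))) ≤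
        2 / (Fintype.card V : ℝ) := by
      rw [av_sum]
      have d : ∀ m ∈ range M, (av fun v => av fun e : Pr V =>
          ind (e.1.1 = v ∨ e.1.2 = v) * (EL m (A φ Z (lz Z S e)) - EL m (A φ Z S))) =
          2 / (Fintype.card V : ℝ) * (EL (m + 1) (A φ Z S) - EL m (A φ Z S)) := by
        intro m _
        rw [av_comm]
        simp only [av_mul_right, av_v, av_mul_left, av_sub, av_const, EL_succ, A_cons]
      rw [sum_congr rfl d, ← mul_sum, sum_range_sub fun m => EL m (A φ Z S)]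
      have d1 : EL M (A φ Z S) ≤ 1 := EL_le _ fun l _ => h1 _
      have d2 : 0 ≤ EL 0 (A φ Z S) := h0 _
      nlinarith
    rw [pow_succ]
    linarith

end VD

theorem rowVD : RowVD := by
  refine ⟨Real.exp 6, (Real.exp_pos _).le, fun V _ _ h M Z φ hM h0 h1 hm => ?_⟩
  refine (VD.main h h0 h1 hm Z M Set.univ).trans ?_
  have h2 : (2 : ℝ) ≤ Fintype.card V := by exact_mod_cast h
  have hM' : (M : ℝ) ≤ 3 * Fintype.card V := by exact_mod_cast hM
  have a : (1 + 2 / (Fintype.card V : ℝ)) ^ M ≤ Real.exp (2 / (Fintype.card V : ℝ)) ^ M :=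
    pow_le_pow_left₀ (by positivity) (by linarith [Real.add_one_le_exp (2 / (Fintype.card V : ℝ))]) M
  rw [← Real.exp_nat_mul] at a
  have b : (M : ℝ) * (2 / (Fintype.card V : ℝ)) ≤ 6 := by
    rw [← mul_div_assoc, div_le_iff₀ (by linarith)]
    linarith
  linarith [Real.exp_le_exp.2 b]

end Pool.Agent.MP_81f5b7_pr.SQ
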