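import Pool.Agent.MP_81f5b7_pr.SQ.CAV3
import Pool.Agent.MP_81f5b7_pr.SQ.DEG
import Pool.Agent.MP_81f5b7_pr.SQ.DR2
import Pool.Agent.MP_81f5b7_pr.SQ.FAR
import Pool.Agent.MP_81f5b7_pr.SQ.GS
import Pool.Agent.MP_81f5b7_pr.SQ.KEY
import Pool.Agent.MP_81f5b7_pr.SQ.PSI
import Pool.Agent.MP_81f5b7_pr.SQ.QW
import Pool.Agent.MP_81f5b7_pr.SQ.RES
import Pool.Agent.MP_81f5b7_pr.SQ.RES2
import Pool.Agent.MP_81f5b7_pr.SQ.RL
import Pool.Agent.MP_81f5b7_pr.SQ.SPL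
import Pool.Agent.MP_81f5b7_pr.SQ.TT
import Pool.Agent.MP_81f5b7_pr.SQ.VARW
import Pool.Agent.MP_81f5b7_pr.SQ.VD
import Pool.Agent.MP_81f5b7_pr.H42.ANC
import Pool.Agent.MP_81f5b7_pr.H42.BETA
import Pool.Agent.MP_81f5b7_pr.H42.BGT
import Pool.Agent.MP_81f5b7_pr.H42.BON
import Pool.Agent.MP_81f5b7_pr.H42.CAV
import Pool.Agent.MP_81f5b7_pr.H42.CHE
import Pool.Agent.MP_81f5b7_pr.H42.FM
import Pool.Agent.MP_81f5b7_pr.H42.LA
import Pool.Agent.MP_81f5b7_pr.H42.LC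
import Pool.Agent.MP_81f5b7_pr.H42.LIM
import Pool.Agent.MP_81f5b7_pr.H42.LINK
import Pool.Agent.MP_81f5b7_pr.H42.SEM
import Pool.Agent.MP_81f5b7_pr.H42.THR
import Pool.Agent.MP_81f5b7_pr.H42.UNI
import Pool.Agent.MP_81f5b7_pr.H42.VAR
import Pool.Agent.MP_81f5b7_pr.H42.YY

/-! All rows together. -/

set_option autoImplicit false

namespace Pool.Agent.MP_81f5b7_pr.SQ

open H42

theorem allLC : RowLC := rowLC (rowLB rowLA) (rowANC rowLA rowUNI rowBON)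
theorem allLAY : RowLAY := rowLAY allLC
theorem allY : RowY := rowY rowCAV allLAY rowBETA
theorem allTHR : RowTHR := rowTHR allY rowVAR rowFM rowBGT rowCHE rowBIN rowLIM
theorem allRES2 : RowRES2 := rowRES2 rowRES
theorem allDRIFT : RowDRIFT := rowDR2 rowRES rowVD
theorem allPSI : RowPSI :=
  rowPSI (rowSPL rowKEY rowFAR)
    (rowCAV3 allRES2 allDRIFT (rowRL allLC) rowKEY rowBETA allLAY) (rowDEG allY) (rowTT rowKEY)
theorem allQW : RowQW := rowQW allPSI rowVARW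
theorem allS : GoalS := goalS allQW allTHR rowFM rowLINK rowSEM

end Pool.Agent.MP_81f5b7_pr.SQ
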