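import Pool.Agent.MP_81f5b7_pr.SQ.Spec
import Pool.Agent.MP_81f5b7_pr.H42.YY

/-! The three cavity terms are bounded. -/

set_option autoImplicit false
set_option linter.style.haveILetI false

namespace Pool.Agent.MP_81f5b7_pr.SQ

open Finset H42

namespace CAV3

variable {V : Type} [Fintype V] [DecidableEq V]

theorem swap (M : ℕ) (f : List (Pr V) → V → ℝ) :
    ∑ m ∈ range M, EL m (fun l : List (Pr V) => av fun x => f l x) =
      av fun x => ∑ m ∈ range M, EL m fun l : List (Pr V) => f l x := by
  rw [av_sum]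
  exact sum_congr rfl fun m _ => EL_av m fun x l => f l x

omit [DecidableEq V] in
theorem el_cov (i : ℕ) (S : St V) (a b : ℝ) :
    EL i (fun z : List V => ind (cov S U z) * a * b) = rho S U i * a * b := by
  rw [EL_mul_right, EL_mul_right]; rfl

/-- the common form of the first two terms -/
theorem scale (M i : ℕ) {K H : ℝ} (hK : 0 ≤ K) {f b : List (Pr V) → ℝ}
    (hf : ∀ l, f l ≤ K ^ i * b l) (hb : ∑ m ∈ range M, EL m b ≤ H) :
    ∑ m ∈ range M, EL m f ≤ H * K ^ i := by
  refine (sum_le_sum fun m _ => EL_mono m hf).trans ?_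
  simp only [EL_mul_left]
  rw [← mul_sum, mul_comm H]
  exact mul_le_mul_of_nonneg_left hb (pow_nonneg hK i)

end CAV3

theorem rowCAV3 (hR : RowRES2) (hD : RowDRIFT) (hL : RowRL) (hK : RowKEY) (hB : H42.RowBETA)
    (hA : H42.RowLAY) : RowCAV3 := by
  obtain ⟨C, hC0, hR⟩ := hR (2 ^ 30) (by positivity)
  obtain ⟨D, hD0, hD⟩ := hD
  obtain ⟨B, hB⟩ := hB
  refine ⟨C * (3 * |B|) + C * (C * 2 ^ 29) + C * (29 * D), by positivity,
    fun V _ _ h M W hM hW => ?_⟩
  haveI := nonempty_of_two h
  have p1 : 0 ≤ C * (3 * |B|) := by positivity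
  have p2 : 0 ≤ C * (C * 2 ^ 29) := by positivity
  have p3 : 0 ≤ C * (29 * D) := by positivity
  have lift : ∀ (G : List (Pr V) → List V → ℝ) (H : ℝ), (∀ l z, 0 ≤ G l z) →
      (∀ i : ℕ, ∑ m ∈ range M, EL m (fun l : List (Pr V) => EL i (G l)) ≤ H * (2 ^ 30) ^ i) →
      ∑ m ∈ range M, EL m (fun l : List (Pr V) => av fun x =>
        ind (nt l x) * G (in2 l x) (zz l x)) ≤ C * H := by
    intro G H h0 h1
    rw [CAV3.swap]
    exact av_le fun x => hR V h M x G H hM h0 h1
  have base : ∀ (b : List (Pr V) → ℝ) (H : ℝ), (∀ l, 0 ≤ b l) → ∑ m ∈ range M, EL m b ≤ H →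
      ∑ m ∈ range M, EL m (fun l : List (Pr V) => av fun x => ind (nt l x) *
        (ind (cov (hr (in2 l x)) U (zz l x)) * life W (hr (in2 l x)) * b (in2 l x))) ≤ C * H := by
    intro b H h0 h1
    refine lift (fun l z => ind (cov (hr l) U z) * life W (hr l) * b l) H
      (fun l z => mul_nonneg (mul_nonneg (ind_nonneg _) (life_nonneg _ _)) (h0 l)) fun i => ?_
    refine CAV3.scale M i (by positivity) (fun l => ?_) h1
    rw [CAV3.el_cov]
    exact mul_le_mul_of_nonneg_right (hL V h i W _ _ hW le_rfl).1 (h0 l)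
  refine ⟨?_, ?_, ?_⟩
  · have h2 : (2 : ℝ) ≤ Fintype.card V := by exact_mod_cast h
    have h3 : ∑ m ∈ range M, EL m (fun l : List (Pr V) => beta l) ≤ 3 * |B| := by
      have h5 : ∀ m ∈ range M, EL m (fun l : List (Pr V) => beta l) ≤ |B| / Fintype.card V :=
        fun m hm => (hB V h m (by have := mem_range.1 hm; omega)).trans
          (div_le_div_of_nonneg_right (le_abs_self B) (by positivity))
      refine (sum_le_sum h5).trans ?_
      rw [sum_const, card_range, nsmul_eq_mul]
      have h4 : (M : ℝ) ≤ 3 * Fintype.card V := by exact_mod_cast hM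
      refine (mul_le_mul_of_nonneg_right h4 (by positivity)).trans_eq ?_
      field_simp
    have := base (fun l => beta l) _ (fun l => YY.beta_nonneg l) h3
    simp only [av_mul_left]
    simp only [beta] at this
    linarith
  · have h3 := lift (fun l z => chi (hr l) * ind (cov (hr l) U z)) (2 ^ 29)
      (fun l z => mul_nonneg (chi_nonneg _) (ind_nonneg _)) fun i => by
        have h4 := YY.lay_one hA h i M hM fun _ => True
        rw [sm_hs_eq] at h4
        refine le_trans (le_of_eq ?_) h4
        refine sum_congr rfl fun m _ => EL_congr m fun l _ => ?_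
        rw [EL_mul_left, ind_congr (and_iff_left trivial)]; rfl
    have := base (fun l => av fun y => ind (nt l y) *
        (chi (hr (in2 l y)) * ind (cov (hr (in2 l y)) U (zz l y)))) _
      (fun l => av_nonneg fun y => mul_nonneg (ind_nonneg _)
        (mul_nonneg (chi_nonneg _) (ind_nonneg _))) h3
    have e : ∀ (l : List (Pr V)) (x : V), (av fun y => ind (nt l x) *
        (ind (cov (hr (in2 l x)) U (zz l x)) * life W (hr (in2 l x)) *
          (ind (nt (in2 l x) y) * (chi (hr (in2 (in2 l x) y)) *
            ind (cov (hr (in2 (in2 l x) y)) U (zz (in2 l x) y)))))) = ind (nt l x) *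
        (ind (cov (hr (in2 l x)) U (zz l x)) * life W (hr (in2 l x)) * av fun y =>
          (ind (nt (in2 l x) y) * (chi (hr (in2 (in2 l x) y)) *
            ind (cov (hr (in2 (in2 l x) y)) U (zz (in2 l x) y))))) := fun l x => by
      rw [av_mul_left, av_mul_left]
    simp only [e]
    linarith
  · have := lift (fun l z => av fun x => (ind (cov (hr l) U z) -
        ind (cov (hr (in2 l x)) U z)) * life W (hr l)) (29 * D)
      (fun l z => av_nonneg fun x => mul_nonneg
        (sub_nonneg.2 (ind_mono (cov_mono (hK V l x).1))) (life_nonneg _ _)) fun i => by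
        have h4 := hD V h M (fun S => rho S U i ^ (1 / 29 : ℝ)) hM
          (fun S => Real.rpow_nonneg (rho_nonneg _ _ _) _)
          (fun S => Real.rpow_le_one (rho_nonneg _ _ _) (rho_le_one _ _ _) (by norm_num))
          (fun S T hT => Real.rpow_le_rpow (rho_nonneg _ _ _) (rho_mono hT _ _) (by norm_num))
        refine CAV3.scale M i (by positivity) (b := fun l => 29 * av fun x =>
          rho (hr l) U i ^ (1 / 29 : ℝ) - rho (hr (in2 l x)) U i ^ (1 / 29 : ℝ)) (fun l => ?_) ?_
        · rw [EL_av, ← av_mul_left, ← av_mul_left]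
          refine av_mono fun x => ?_
          rw [EL_mul_right, EL_sub]
          refine ((hL V h i W _ _ hW (hK V l x).1).2).trans_eq ?_
          ring
        · simp only [EL_mul_left]
          rw [← mul_sum]
          linarith
    have e : ∀ (l : List (Pr V)) (y : V), (av fun x => ind (nt l y) *
        ((ind (cov (hr (in2 l y)) U (zz l y)) - ind (cov (hr (in2 (in2 l y) x)) U (zz l y))) *
          life W (hr (in2 l y)))) = ind (nt l y) * av fun x =>
        ((ind (cov (hr (in2 l y)) U (zz l y)) - ind (cov (hr (in2 (in2 l y) x)) U (zz l y))) *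
          life W (hr (in2 l y))) := fun l y => av_mul_left _ _
    simp only [e]
    linarith

end Pool.Agent.MP_81f5b7_pr.SQ
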