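import Pool.Agent.MP_81f5b7_pr.SQ.Spec

/-! The drift under the letters of a closed neighbourhood. -/

set_option autoImplicit false

namespace Pool.Agent.MP_81f5b7_pr.SQ

open Finset H42

namespace DRIFT

variable {V : Type} [DecidableEq V]

theorem hr_inn (Z : List V) (l : List (Pr V)) : hr l ⊆ hr (inn Z l) :=
  fun _ h => mem_hr.2 fun e he => mem_hr.1 h e (List.mem_of_mem_filter he)

theorem inn_nil (l : List (Pr V)) : inn [] l = l := by
  simp [inn, tch]

omit [DecidableEq V] in
theorem nd_one (x : V) (l : List (Pr V)) : nd [x] l := fun e _ h =>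
  e.2 ((List.mem_singleton.1 h.1).trans (List.mem_singleton.1 h.2).symm)

theorem swap [Fintype V] (M i : ℕ) (D : List (Pr V) → List V → V → ℝ) :
    ∑ m ∈ range M, EL m (fun l : List (Pr V) => av fun v => EL i fun s => D l s v) =
      EL i fun s => av fun v => ∑ m ∈ range M, EL m fun l : List (Pr V) => D l s v := by
  simp only [av_sum]
  rw [EL_sum]
  refine sum_congr rfl fun m _ => ?_
  rw [EL_av m fun v (l : List (Pr V)) => EL i fun s => D l s v,
    EL_av i fun v (s : List V) => EL m fun l : List (Pr V) => D l s v]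
  congr 1
  funext v
  exact EL_comm m i fun l s => D l s v

theorem lin [Fintype V] [Nonempty V] (M : ℕ) (φ : St V → ℝ) (C : ℝ)
    (h : ∀ Z : List V, (av fun v => ∑ m ∈ range M, EL m fun l : List (Pr V) =>
      φ (hr (inn Z l)) - φ (hr (inn (v :: Z) l))) ≤ C) (i : ℕ) :
    ∑ m ∈ range M, EL m (fun l : List (Pr V) =>
      EL i fun s => φ (hr l) - φ (hr (inn s l))) ≤ i * C := by
  induction i with
  | zero => simp [inn_nil, EL_fun_zero]
  | succ i ih =>
    have e : ∀ l : List (Pr V), EL (i + 1) (fun s => φ (hr l) - φ (hr (inn s l))) =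
        EL i (fun s => φ (hr l) - φ (hr (inn s l))) +
          av fun v => EL i fun s => φ (hr (inn s l)) - φ (hr (inn (v :: s) l)) := by
      intro l
      rw [EL_succ, ← av_const (α := V) (EL i fun s => φ (hr l) - φ (hr (inn s l))), ← av_add]
      congr 1
      funext v
      rw [← EL_add]
      congr 1
      funext s
      ring
    simp only [e, EL_add, sum_add_distrib]
    rw [swap M i fun l s v => φ (hr (inn s l)) - φ (hr (inn (v :: s) l))]
    have := EL_le i (f := fun s : List V => av fun v => ∑ m ∈ range M,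
      EL m fun l : List (Pr V) => φ (hr (inn s l)) - φ (hr (inn (v :: s) l))) fun s _ => h s
    push_cast
    linarith

theorem ser (M : ℕ) : ∑ i ∈ range M, (12 : ℝ) ^ i / i.factorial * i ≤ Real.exp 24 := by
  refine le_trans (sum_le_sum fun i _ => ?_) (Real.sum_le_exp_of_nonneg (by norm_num) M)
  have h : (i : ℝ) ≤ 2 ^ i := by exact_mod_cast (Nat.lt_two_pow_self (n := i)).le
  rw [show (24 : ℝ) = 12 * 2 by norm_num, mul_pow, div_mul_eq_mul_div]
  gcongr

end DRIFT

theorem rowDRIFT (hR : RowRES) (hV : RowVD) : RowDRIFT := by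
  obtain ⟨C, hC, hV⟩ := hV
  refine ⟨C + Real.exp 24 * C, by positivity, fun V _ _ h2 M φ hM h0 h1 hm => ?_⟩
  have := nonempty_of_two h2
  have hv := fun Z => hV V h2 M Z φ hM h0 h1 hm
  have e : ∀ (l : List (Pr V)) (x : V), φ (hr l) - φ (hr (in2 l x)) =
      (φ (hr (inn [] l)) - φ (hr (inn [x] l))) + ind (nd [x] l) *
        (φ (hr (inn [x] l)) - φ (hr (inn (outs [x] l) (inn [x] l)))) := by
    intro l x
    rw [ind_pos (DRIFT.nd_one x l), DRIFT.inn_nil, in2, star]
    ring
  have sw : ∀ F : List (Pr V) → V → ℝ,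
      ∑ m ∈ range M, EL m (fun l : List (Pr V) => av fun x => F l x) =
        av fun x => ∑ m ∈ range M, EL m fun l : List (Pr V) => F l x := by
    intro F
    rw [av_sum]
    exact sum_congr rfl fun m _ => EL_av m fun x l => F l x
  rw [sw]
  simp only [e, EL_add, sum_add_distrib, av_add]
  refine add_le_add (hv []) (av_le fun x => ?_)
  refine (hR V h2 M [x] (fun l s => φ (hr l) - φ (hr (inn s l))) hM
    fun l s => sub_nonneg.2 (hm _ _ (DRIFT.hr_inn s l))).trans ?_
  refine le_trans (sum_le_sum fun i _ => ?_)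
    ((sum_mul _ _ C).symm.trans_le (mul_le_mul_of_nonneg_right (DRIFT.ser (M + 1)) hC))
  rw [List.length_singleton, Nat.cast_one, mul_one, mul_assoc]
  exact mul_le_mul_of_nonneg_left (DRIFT.lin M φ C hv i) (by positivity)

end Pool.Agent.MP_81f5b7_pr.SQ
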