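import Pool.Agent.MP_81f5b7_pr.SQ.Spec

set_option autoImplicit false

namespace Pool.Agent.MP_81f5b7_pr.SQ

open Finset H42

theorem rowSPL (hK : RowKEY) (hF : RowFAR) : RowSPL := by
  intro V _ _ hV W l x y
  have hW : (0 : ℝ) ≤ W := Nat.cast_nonneg W
  have n1 := mul_nonneg hW (ind_nonneg ((hr l).Nonempty ∧ par (hr l) x ∧ ¬ far l x y))
  have n2 := mul_nonneg hW (ind_nonneg (far l x y ∧ ¬ nt l x ∧ ¬ nt l y))
  have n3 := mul_nonneg (ind_nonneg (nt l x)) (mul_nonneg (mul_nonneg
    (ind_nonneg (cov (hr (in2 l x)) U (zz l x))) (life_nonneg W (hr (in2 l x))))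
    (ind_nonneg (tri (in2 l x) y)))
  have n4 := mul_nonneg (ind_nonneg (nt l y)) (mul_nonneg (mul_nonneg
    (ind_nonneg (cov (hr (in2 l y)) U (zz l y))) (life_nonneg W (hr (in2 l y))))
    (ind_nonneg (tri (in2 l y) x)))
  have n5 := mul_nonneg (ind_nonneg (nt l x)) (mul_nonneg (mul_nonneg
    (ind_nonneg (cov (hr (in2 l x)) U (zz l x))) (life_nonneg W (hr (in2 l x))))
    (mul_nonneg (ind_nonneg (nt (in2 l x) y)) (mul_nonneg (chi_nonneg (hr (in2 (in2 l x) y)))
      (ind_nonneg (cov (hr (in2 (in2 l x) y)) U (zz (in2 l x) y))))))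
  have n6 := mul_nonneg (ind_nonneg (nt l y)) (mul_nonneg (sub_nonneg.2
    (ind_mono (p := cov (hr (in2 (in2 l y) x)) U (zz l y)) (q := cov (hr (in2 l y)) U (zz l y))
      (cov_mono (hK V (in2 l y) x).1))) (life_nonneg W (hr (in2 l y))))
  by_cases h : (hr l).Nonempty ∧ x ≠ y ∧ eqv (hr l) x y
  · obtain ⟨ha, hxy, he⟩ := h
    have px : par (hr l) x := ⟨y, hxy.symm, he⟩
    have py : par (hr l) y := ⟨x, hxy, fun σ hσ => (he σ hσ).symm⟩
    have lW := life_le hV W (hr l)
    have lx := life_mono W (hK V l x).1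
    have ly := life_mono W (hK V l y).1
    rw [ind_pos (show (hr l).Nonempty ∧ x ≠ y ∧ eqv (hr l) x y from ⟨ha, hxy, he⟩), one_mul]
    by_cases hf : far l x y
    · obtain ⟨hf', z1, t1, i1⟩ := hF V l x y hf
      obtain ⟨-, -, t2, -⟩ := hF V l y x hf'
      by_cases tx : nt l x
      · have cx := (hK V l x).2.1 px tx
        by_cases ty : nt l y
        · have cy := (hK V l y).2.1 py ty
          by_cases c : cov (hr (in2 (in2 l x) y)) U (zz l y)
          · have al : (hr (in2 (in2 l x) y)).Nonempty :=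
              (ha.mono (hK V l x).1).mono (hK V (in2 l x) y).1
            have e : ind (nt l x) * (ind (cov (hr (in2 l x)) U (zz l x)) * life W (hr (in2 l x)) *
                (ind (nt (in2 l x) y) * (chi (hr (in2 (in2 l x) y)) *
                  ind (cov (hr (in2 (in2 l x) y)) U (zz (in2 l x) y))))) = life W (hr (in2 l x)) := by
              rw [ind_pos tx, ind_pos cx, ind_pos (t1.2 ty), chi_pos al, z1, ind_pos c]; ring
            linarith
          · have e : ind (nt l y) * ((ind (cov (hr (in2 l y)) U (zz l y)) -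
                ind (cov (hr (in2 (in2 l y) x)) U (zz l y))) * life W (hr (in2 l y))) =
                life W (hr (in2 l y)) := by
              rw [ind_pos ty, ind_pos cy, ← i1, ind_neg c]; ring
            linarith
        · have e : ind (nt l x) * (ind (cov (hr (in2 l x)) U (zz l x)) * life W (hr (in2 l x)) *
              ind (tri (in2 l x) y)) = life W (hr (in2 l x)) := by
            rw [ind_pos tx, ind_pos cx, ind_pos ((hK V (in2 l x) y).2.2 fun t => ty (t1.1 t))]; ring
          linarith
      · by_cases ty : nt l y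
        · have cy := (hK V l y).2.1 py ty
          have e : ind (nt l y) * (ind (cov (hr (in2 l y)) U (zz l y)) * life W (hr (in2 l y)) *
              ind (tri (in2 l y) x)) = life W (hr (in2 l y)) := by
            rw [ind_pos ty, ind_pos cy, ind_pos ((hK V (in2 l y) x).2.2 fun t => tx (t2.1 t))]; ring
          linarith
        · have e : (W : ℝ) * ind (far l x y ∧ ¬ nt l x ∧ ¬ nt l y) = W := by
            rw [ind_pos (show far l x y ∧ ¬ nt l x ∧ ¬ nt l y from ⟨hf, tx, ty⟩), mul_one]
          linarith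
    · have e : (W : ℝ) * ind ((hr l).Nonempty ∧ par (hr l) x ∧ ¬ far l x y) = W := by
        rw [ind_pos (show (hr l).Nonempty ∧ par (hr l) x ∧ ¬ far l x y from ⟨ha, px, hf⟩), mul_one]
      linarith
  · rw [ind_neg h, zero_mul]
    linarith

end Pool.Agent.MP_81f5b7_pr.SQ
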