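import Pool.Agent.MP_81f5b7_pr.H42.Spec
import Pool.Agent.MP_81f5b7_pr.H42.Rho

/-! The window of order `sqrt n`: definitions and rows. -/

set_option autoImplicit false

namespace Pool.Agent.MP_81f5b7_pr.SQ

open Finset Filter H42

section Col

variable {V : Type} [DecidableEq V]

/-- the letter has an end in `Z` -/
def tch (Z : List V) (e : Pr V) : Prop := e.1.1 ∈ Z ∨ e.1.2 ∈ Z

instance (Z : List V) (e : Pr V) : Decidable (tch Z e) := by unfold tch; infer_instance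

/-- the letters with no end in `Z` -/
def inn (Z : List V) (l : List (Pr V)) : List (Pr V) := l.filter fun e => decide (¬ tch Z e)

/-- the other ends of the letters with an end in `Z` -/
def outs (Z : List V) : List (Pr V) → List V
  | [] => []
  | e :: l =>
    if e.1.1 ∈ Z then e.1.2 :: outs Z l else if e.1.2 ∈ Z then e.1.1 :: outs Z l else outs Z l

/-- no letter has both ends in `Z` -/
def nd (Z : List V) (l : List (Pr V)) : Prop := ∀ e ∈ l, ¬ (e.1.1 ∈ Z ∧ e.1.2 ∈ Z)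

/-- the neighbours of `y` -/
def star (l : List (Pr V)) (y : V) : List V := outs [y] l

/-- no letter joins two neighbours of `y` -/
def nt (l : List (Pr V)) (y : V) : Prop := nd (star l y) (inn [y] l)

/-- the letters that meet neither `y` nor its neighbours -/
def in2 (l : List (Pr V)) (y : V) : List (Pr V) := inn (star l y) (inn [y] l)

/-- the second neighbours of `y` -/
def zz (l : List (Pr V)) (y : V) : List V := outs (star l y) (inn [y] l)

/-- no letter meets both closed neighbourhoods -/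
def far (l : List (Pr V)) (x y : V) : Prop :=
  ∀ e ∈ l, ¬ (tch (x :: star l x) e ∧ tch (y :: star l y) e)

end Col

/-- Resampling the letters that meet a fixed set. -/
def RowRES : Prop := ∀ (V : Type) [Fintype V] [DecidableEq V], 2 ≤ Fintype.card V →
  ∀ (M : ℕ) (Z : List V) (Ψ : List (Pr V) → List V → ℝ), M ≤ 3 * Fintype.card V →
    (∀ l z, 0 ≤ Ψ l z) →
    ∑ m ∈ range M, EL m (fun l : List (Pr V) => ind (nd Z l) * Ψ (inn Z l) (outs Z l)) ≤
      ∑ i ∈ range (M + 1), (12 * (Z.length : ℝ)) ^ i / i.factorial *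
        ∑ m ∈ range M, EL m fun l : List (Pr V) => EL i (Ψ l)

/-- Resampling two layers around a vertex. -/
def RowRES2 : Prop := ∀ K : ℝ, 0 ≤ K → ∃ C : ℝ, 0 ≤ C ∧
  ∀ (V : Type) [Fintype V] [DecidableEq V], 2 ≤ Fintype.card V →
  ∀ (M : ℕ) (y : V) (Φ : List (Pr V) → List V → ℝ) (H : ℝ), M ≤ 3 * Fintype.card V →
    (∀ l z, 0 ≤ Φ l z) →
    (∀ i : ℕ, ∑ m ∈ range M, EL m (fun l : List (Pr V) => EL i (Φ l)) ≤ H * K ^ i) →
    ∑ m ∈ range M, EL m (fun l : List (Pr V) => ind (nt l y) * Φ (in2 l y) (zz l y)) ≤ C * H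

/-- The drift of a monotone function under the letters of one more vertex. -/
def RowVD : Prop := ∃ C : ℝ, 0 ≤ C ∧ ∀ (V : Type) [Fintype V] [DecidableEq V],
  2 ≤ Fintype.card V → ∀ (M : ℕ) (Z : List V) (φ : St V → ℝ), M ≤ 3 * Fintype.card V →
    (∀ S, 0 ≤ φ S) → (∀ S, φ S ≤ 1) → (∀ S T : St V, T ⊆ S → φ S ≤ φ T) →
    (av fun v => ∑ m ∈ range M, EL m fun l : List (Pr V) =>
      φ (hr (inn Z l)) - φ (hr (inn (v :: Z) l))) ≤ C

/-- The drift under the letters of a closed neighbourhood. -/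
def RowDRIFT : Prop := ∃ C : ℝ, 0 ≤ C ∧ ∀ (V : Type) [Fintype V] [DecidableEq V],
  2 ≤ Fintype.card V → ∀ (M : ℕ) (φ : St V → ℝ), M ≤ 3 * Fintype.card V →
    (∀ S, 0 ≤ φ S) → (∀ S, φ S ≤ 1) → (∀ S T : St V, T ⊆ S → φ S ≤ φ T) →
    ∑ m ∈ range M, EL m (fun l : List (Pr V) => av fun x => φ (hr l) - φ (hr (in2 l x))) ≤ C

/-- The second neighbours of a partnered vertex cover. -/
def RowKEY : Prop := ∀ (V : Type) [DecidableEq V] (l : List (Pr V)) (y : V),
  hr l ⊆ hr (in2 l y) ∧ (par (hr l) y → nt l y → cov (hr (in2 l y)) U (zz l y)) ∧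
    (¬ nt l y → tri l y)

/-- Distant neighbourhoods do not see each other. -/
def RowFAR : Prop := ∀ (V : Type) [DecidableEq V] (l : List (Pr V)) (x y : V), far l x y →
  far l y x ∧ zz (in2 l x) y = zz l y ∧ (nt (in2 l x) y ↔ nt l y) ∧
    in2 (in2 l x) y = in2 (in2 l y) x

/-- Covering probability against life time. -/
def RowRL : Prop := ∀ (V : Type) [Fintype V] [DecidableEq V], 2 ≤ Fintype.card V →
  ∀ (j W : ℕ) (S S' : St V), W ≤ 3 * Fintype.card V → S ⊆ S' →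
    rho S U j * life W S ≤ (2 ^ 30) ^ j ∧
    (rho S U j - rho S' U j) * life W S ≤
      29 * (2 ^ 30) ^ j * (rho S U j ^ (1 / 29 : ℝ) - rho S' U j ^ (1 / 29 : ℝ))

/-- Close pairs are rare. -/
def RowDEG : Prop := ∃ C : ℝ, 0 ≤ C ∧ ∀ (V : Type) [Fintype V] [DecidableEq V],
  2 ≤ Fintype.card V → ∀ M k : ℕ, M ≤ 3 * Fintype.card V →
    ∑ m ∈ range M, EL m (fun l : List (Pr V) => av fun x => av fun y =>
        ind ((hr l).Nonempty ∧ par (hr l) x ∧ ¬ far l x y)) ≤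
      C * (((k : ℝ) + 1) ^ 3 / Fintype.card V + (Fintype.card V : ℝ) ^ 2 / 2 ^ k)

/-- Two distant triangles are rare. -/
def RowTT : Prop := ∃ C : ℝ, 0 ≤ C ∧ ∀ (V : Type) [Fintype V] [DecidableEq V],
  2 ≤ Fintype.card V → ∀ m : ℕ, m ≤ 3 * Fintype.card V →
    EL m (fun l : List (Pr V) => av fun x => av fun y =>
      ind (far l x y ∧ ¬ nt l x ∧ ¬ nt l y)) ≤ C / (Fintype.card V : ℝ) ^ 2

/-- The pointwise splitting of a fatal pair. -/
def RowSPL : Prop := ∀ (V : Type) [Fintype V] [DecidableEq V], 2 ≤ Fintype.card V →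
  ∀ (W : ℕ) (l : List (Pr V)) (x y : V),
    ind ((hr l).Nonempty ∧ x ≠ y ∧ eqv (hr l) x y) * life W (hr l) ≤
      W * ind ((hr l).Nonempty ∧ par (hr l) x ∧ ¬ far l x y) +
      W * ind (far l x y ∧ ¬ nt l x ∧ ¬ nt l y) +
      ind (nt l x) * (ind (cov (hr (in2 l x)) U (zz l x)) * life W (hr (in2 l x)) *
        ind (tri (in2 l x) y)) +
      ind (nt l y) * (ind (cov (hr (in2 l y)) U (zz l y)) * life W (hr (in2 l y)) *
        ind (tri (in2 l y) x)) +
      ind (nt l x) * (ind (cov (hr (in2 l x)) U (zz l x)) * life W (hr (in2 l x)) *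
        (ind (nt (in2 l x) y) * (chi (hr (in2 (in2 l x) y)) *
          ind (cov (hr (in2 (in2 l x) y)) U (zz (in2 l x) y))))) +
      ind (nt l y) * ((ind (cov (hr (in2 l y)) U (zz l y)) -
        ind (cov (hr (in2 (in2 l y) x)) U (zz l y))) * life W (hr (in2 l y)))

/-- The three cavity terms are bounded. -/
def RowCAV3 : Prop := ∃ C : ℝ, 0 ≤ C ∧ ∀ (V : Type) [Fintype V] [DecidableEq V],
  2 ≤ Fintype.card V → ∀ M W : ℕ, M ≤ 3 * Fintype.card V → W ≤ 3 * Fintype.card V →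
    ∑ m ∈ range M, EL m (fun l : List (Pr V) => av fun x => av fun y =>
      ind (nt l x) * (ind (cov (hr (in2 l x)) U (zz l x)) * life W (hr (in2 l x)) *
        ind (tri (in2 l x) y))) ≤ C ∧
    ∑ m ∈ range M, EL m (fun l : List (Pr V) => av fun x => av fun y =>
      ind (nt l x) * (ind (cov (hr (in2 l x)) U (zz l x)) * life W (hr (in2 l x)) *
        (ind (nt (in2 l x) y) * (chi (hr (in2 (in2 l x) y)) *
          ind (cov (hr (in2 (in2 l x) y)) U (zz (in2 l x) y)))))) ≤ C ∧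
    ∑ m ∈ range M, EL m (fun l : List (Pr V) => av fun y => av fun x =>
      ind (nt l y) * ((ind (cov (hr (in2 l y)) U (zz l y)) -
        ind (cov (hr (in2 (in2 l y) x)) U (zz l y))) * life W (hr (in2 l y)))) ≤ C

/-- Hazard times remaining life has bounded total mass. -/
def RowPSI : Prop := ∃ C : ℝ, 0 ≤ C ∧ ∀ (V : Type) [Fintype V] [DecidableEq V],
  2 ≤ Fintype.card V → ∀ M W k : ℕ, M ≤ 3 * Fintype.card V → W ≤ 3 * Fintype.card V →
    sm hs M (fun T : St V => hz T * life W T) Set.univ ≤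
      C * (1 + W * (((k : ℝ) + 1) ^ 3 / Fintype.card V + (Fintype.card V : ℝ) ^ 2 / 2 ^ k))

/-- Variance of the life time inside a window. -/
def RowVARW : Prop := ∀ (V : Type) [Fintype V] [DecidableEq V], 2 ≤ Fintype.card V →
  ∀ (a W : ℕ) (S : St V),
    ∑ i ∈ range W, (2 * (i : ℝ) + 1) * al (a + i) S - (∑ i ∈ range W, al (a + i) S) ^ 2 ≤
      2 * ((a : ℝ) + W) * sm hs (a + W) (fun T => hz T * life W T) S

/-- Quantiles are at distance `O(sqrt n)`. -/
def RowQW : Prop := ∀ η : ℝ, 0 < η → ∃ A : ℝ, 0 ≤ A ∧ ∀ᶠ n : ℕ in atTop, ∀ a W : ℕ,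
  a + W ≤ 3 * n → pp n a ≤ 1 - η → η ≤ pp n (a + W) → (W : ℝ) ≤ A * Real.sqrt n

/-- The window of the first rejection. -/
def GoalS : Prop := ∃ μ : ℕ → ℝ, (∃ c : ℝ, Tendsto (fun n : ℕ => μ n / n) atTop (nhds c)) ∧
  ∀ η : ℝ, 0 < η → ∃ A : ℝ, ∀ᶠ n : ℕ in atTop, 1 - η ≤
    prob fun π : Scan n => ∃ t : ℕ, FirstRej π t ∧ |(t : ℝ) - μ n| ≤ A * Real.sqrt n

end Pool.Agent.MP_81f5b7_pr.SQ
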